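import Pool.Agent.H483S.Defs

set_option autoImplicit false
noncomputable section

namespace Pool.Agent.H483S

open Finset











theorem ap_count_prs {d i j : ℕ} (hd : 1 ≤ d) {k l : ℤ} (hk : -(i : ℤ) ≤ k) (hkl : k < l)
    (hl : l ≤ j) (k0 : k ≠ 0) (l0 : l ≠ 0) : ((k * d, l * d) : ℤ × ℤ) ∈ prs (prog d i j) := by
  have hd' : (0 : ℤ) < d := by exact_mod_cast hd
  unfold prs
  rw [Finset.mem_filter, Finset.mem_product]
  refine ⟨⟨?_, ?_⟩, ?_, ?_, ?_⟩
  · unfold prog
    exact Finset.mem_image.2 ⟨k, Finset.mem_Icc.2 ⟨hk, by linarith⟩, rfl⟩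
  · unfold prog
    exact Finset.mem_image.2 ⟨l, Finset.mem_Icc.2 ⟨by linarith, hl⟩, rfl⟩
  · exact mul_lt_mul_of_pos_right hkl hd'
  · exact mul_ne_zero k0 hd'.ne'
  · exact mul_ne_zero l0 hd'.ne'

/-- the map on the triples of type 1 -/
def apPhi (p : ℕ × ℕ × ℕ) : ℤ × ℤ :=
  if p.2.1 = 0 then ((1 : ℤ) * p.1, (p.2.2 : ℤ) * p.1)
  else if p.2.2 = 0 then ((-(p.2.1 : ℤ)) * p.1, (-1 : ℤ) * p.1)
  else ((-(p.2.1 : ℤ)) * p.1, (p.2.2 : ℤ) * p.1)

/-- the pairs which may be in the image of the map on the triples of type 1 -/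
def apDv (q : ℤ × ℤ) : Prop :=
  (0 < q.1 ∧ q.1 ∣ q.2) ∨ (q.2 < 0 ∧ q.2 ∣ q.1) ∨ (q.1 < 0 ∧ 0 < q.2)

theorem apPhi_dv {d i j : ℕ} (hd : 1 ≤ d) (h2 : 2 ≤ i + j) : apDv (apPhi (d, i, j)) := by
  have hd' : (0 : ℤ) < d := by exact_mod_cast hd
  unfold apPhi apDv
  dsimp only
  by_cases hi : i = 0
  · rw [if_pos hi]
    left
    exact ⟨by simpa using hd', by rw [one_mul]; exact Dvd.intro_left _ rfl⟩
  · rw [if_neg hi]
    by_cases hj : j = 0
    · rw [if_pos hj]
      right; left
      refine ⟨by linarith, ⟨(i : ℤ), by ring⟩⟩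
    · rw [if_neg hj]
      right; right
      have hi' : (0 : ℤ) < i := by exact_mod_cast Nat.pos_of_ne_zero hi
      have hj' : (0 : ℤ) < j := by exact_mod_cast Nat.pos_of_ne_zero hj
      refine ⟨?_, mul_pos hj' hd'⟩
      have := mul_pos hi' hd'
      dsimp only
      linarith

theorem apPhi_mem {d i j : ℕ} (hd : 1 ≤ d) (h2 : 2 ≤ i + j) :
    apPhi (d, i, j) ∈ prs (prog d i j) := by
  unfold apPhi
  dsimp only
  by_cases hi : i = 0
  · rw [if_pos hi]
    have hj : (2 : ℤ) ≤ j := by exact_mod_cast (by omega : 2 ≤ j)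
    exact ap_count_prs hd (by linarith [Int.natCast_nonneg i]) (by linarith) le_rfl
      one_ne_zero (by linarith)
  · rw [if_neg hi]
    have hi' : (1 : ℤ) ≤ i := by exact_mod_cast Nat.pos_of_ne_zero hi
    by_cases hj : j = 0
    · rw [if_pos hj]
      have hi2 : (2 : ℤ) ≤ i := by exact_mod_cast (by omega : 2 ≤ i)
      exact ap_count_prs hd le_rfl (by linarith) (by linarith [Int.natCast_nonneg j])
        (by linarith) (by norm_num)
    · rw [if_neg hj]
      have hj' : (1 : ℤ) ≤ j := by exact_mod_cast Nat.pos_of_ne_zero hj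
      exact ap_count_prs hd le_rfl (by linarith) le_rfl (by linarith) (by linarith)

theorem apPhi_inj {d i j d' i' j' : ℕ} (hd : 1 ≤ d) (hd' : 1 ≤ d') (h2 : 2 ≤ i + j)
    (h2' : 2 ≤ i' + j') (t : i = 0 ∨ j = 0 ∨ Nat.Coprime i j)
    (t' : i' = 0 ∨ j' = 0 ∨ Nat.Coprime i' j') (h : apPhi (d, i, j) = apPhi (d', i', j')) :
    (d, i, j) = (d', i', j') := by
  have e1 : (0 : ℤ) < d := by exact_mod_cast hd
  have e1' : (0 : ℤ) < d' := by exact_mod_cast hd'
  unfold apPhi at h
  dsimp only at h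
  by_cases hi : i = 0
  · rw [if_pos hi] at h
    by_cases hi' : i' = 0
    · rw [if_pos hi'] at h
      obtain ⟨a1, a2⟩ := Prod.mk.inj h
      have a3 : d = d' := by
        have : (d : ℤ) = d' := by linarith
        exact_mod_cast this
      subst a3
      have a4 : j = j' := by
        have := mul_right_cancel₀ e1.ne' a2
        exact_mod_cast this
      rw [hi, hi', a4]
    · exfalso
      rw [if_neg hi'] at h
      have p : (0 : ℤ) < i' := by exact_mod_cast Nat.pos_of_ne_zero hi'
      have := mul_pos p e1'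
      by_cases hj' : j' = 0
      · rw [if_pos hj'] at h
        obtain ⟨a1, a2⟩ := Prod.mk.inj h
        linarith
      · rw [if_neg hj'] at h
        obtain ⟨a1, a2⟩ := Prod.mk.inj h
        linarith
  · rw [if_neg hi] at h
    have p : (0 : ℤ) < i := by exact_mod_cast Nat.pos_of_ne_zero hi
    have p1 := mul_pos p e1
    by_cases hi' : i' = 0
    · exfalso
      rw [if_pos hi'] at h
      by_cases hj : j = 0
      · rw [if_pos hj] at h
        obtain ⟨a1, a2⟩ := Prod.mk.inj h
        linarith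
      · rw [if_neg hj] at h
        obtain ⟨a1, a2⟩ := Prod.mk.inj h
        linarith
    · rw [if_neg hi'] at h
      have p' : (0 : ℤ) < i' := by exact_mod_cast Nat.pos_of_ne_zero hi'
      by_cases hj : j = 0
      · rw [if_pos hj] at h
        by_cases hj' : j' = 0
        · rw [if_pos hj'] at h
          obtain ⟨a1, a2⟩ := Prod.mk.inj h
          have a3 : d = d' := by
            have : (d : ℤ) = d' := by linarith
            exact_mod_cast this
          subst a3
          have a4 : i = i' := by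
            have := mul_right_cancel₀ e1.ne' a1
            have : (i : ℤ) = i' := by linarith
            exact_mod_cast this
          rw [hj, hj', a4]
        · exfalso
          rw [if_neg hj'] at h
          have q : (0 : ℤ) < j' := by exact_mod_cast Nat.pos_of_ne_zero hj'
          have := mul_pos q e1'
          obtain ⟨a1, a2⟩ := Prod.mk.inj h
          linarith
      · rw [if_neg hj] at h
        have q : (0 : ℤ) < j := by exact_mod_cast Nat.pos_of_ne_zero hj
        have q1 := mul_pos q e1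
        by_cases hj' : j' = 0
        · exfalso
          rw [if_pos hj'] at h
          obtain ⟨a1, a2⟩ := Prod.mk.inj h
          linarith
        · rw [if_neg hj'] at h
          obtain ⟨a1, a2⟩ := Prod.mk.inj h
          have c : Nat.Coprime i j := by
            rcases t with t | t | t
            · exact absurd t hi
            · exact absurd t hj
            · exact t
          have c' : Nat.Coprime i' j' := by
            rcases t' with t | t | t
            · exact absurd t hi'
            · exact absurd t hj'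
            · exact t
          have b1 : i * d = i' * d' := by
            have : (i : ℤ) * d = i' * d' := by linarith
            exact_mod_cast this
          have b2 : j * d = j' * d' := by exact_mod_cast a2
          have g1 : Nat.gcd (i * d) (j * d) = d := by
            rw [Nat.gcd_mul_right, c.gcd_eq_one, one_mul]
          have g2 : Nat.gcd (i' * d') (j' * d') = d' := by
            rw [Nat.gcd_mul_right, c'.gcd_eq_one, one_mul]
          have a3 : d = d' := by rw [← g1, ← g2, b1, b2]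
          subst a3
          have b3 : i = i' := Nat.eq_of_mul_eq_mul_right hd b1
          have b4 : j = j' := Nat.eq_of_mul_eq_mul_right hd b2
          rw [b3, b4]

theorem ap_mem_W {J : ℕ} {p : ℕ × ℕ} (h : p ∈ W J) :
    2 ≤ p.1 ∧ p.1 < p.2 ∧ p.2 ≤ J ∧ Nat.Coprime p.1 p.2 := by
  unfold W at h
  rw [Finset.mem_filter, Finset.mem_product, Finset.mem_Icc, Finset.mem_Icc] at h
  exact ⟨h.1.1.1, h.2.1, h.1.2.2, h.2.2⟩

/-- the two families of pairs of the same sign -/
theorem ap_W_card (Q : Finset (ℤ × ℤ)) (d I J : ℕ) (hd : 1 ≤ d)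
    (h1 : ∀ p ∈ W J, (((p.1 : ℤ) * d, (p.2 : ℤ) * d) : ℤ × ℤ) ∈ Q)
    (h2 : ∀ p ∈ W I, ((-(p.2 : ℤ) * d, -(p.1 : ℤ) * d) : ℤ × ℤ) ∈ Q) :
    (W I).card + (W J).card ≤ Q.card := by
  classical
  have e1 : (0 : ℤ) < d := by exact_mod_cast hd
  have c1 : ((W J).image (fun p : ℕ × ℕ => (((p.1 : ℤ) * d, (p.2 : ℤ) * d) : ℤ × ℤ))).card =
      (W J).card := by
    apply Finset.card_image_of_injective
    rintro ⟨x, y⟩ ⟨x', y'⟩ h
    obtain ⟨a1, a2⟩ := Prod.mk.inj h
    dsimp only at a1 a2
    have b1 := mul_right_cancel₀ e1.ne' a1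
    have b2 := mul_right_cancel₀ e1.ne' a2
    have b3 : x = x' := by exact_mod_cast b1
    have b4 : y = y' := by exact_mod_cast b2
    rw [b3, b4]
  have c2 : ((W I).image (fun p : ℕ × ℕ => ((-(p.2 : ℤ) * d, -(p.1 : ℤ) * d) : ℤ × ℤ))).card =
      (W I).card := by
    apply Finset.card_image_of_injective
    rintro ⟨x, y⟩ ⟨x', y'⟩ h
    obtain ⟨a1, a2⟩ := Prod.mk.inj h
    dsimp only at a1 a2
    have b1 := neg_injective (mul_right_cancel₀ e1.ne' a1)
    have b2 := neg_injective (mul_right_cancel₀ e1.ne' a2)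
    have b3 : y = y' := by exact_mod_cast b1
    have b4 : x = x' := by exact_mod_cast b2
    rw [b3, b4]
  rw [← c1, ← c2, ← Finset.card_union_of_disjoint]
  · apply Finset.card_le_card
    intro q hq
    rcases Finset.mem_union.1 hq with hq | hq
    · obtain ⟨p, hp, rfl⟩ := Finset.mem_image.1 hq
      exact h2 p hp
    · obtain ⟨p, hp, rfl⟩ := Finset.mem_image.1 hq
      exact h1 p hp
  · rw [Finset.disjoint_left]
    intro q hq hq'
    obtain ⟨p, hp, rfl⟩ := Finset.mem_image.1 hq
    obtain ⟨p', hp', h⟩ := Finset.mem_image.1 hq'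
    obtain ⟨a1, a2⟩ := Prod.mk.inj h
    obtain ⟨u1, u2, u3, u4⟩ := ap_mem_W hp
    obtain ⟨v1, v2, v3, v4⟩ := ap_mem_W hp'
    have w1 : (0 : ℤ) < p.2 := by exact_mod_cast (by omega : 0 < p.2)
    have w2 : (0 : ℤ) < p'.1 := by exact_mod_cast (by omega : 0 < p'.1)
    have := mul_pos w1 e1
    have := mul_pos w2 e1
    linarith

theorem ap_not_dvd {d p q : ℕ} (hd : 1 ≤ d) (hp : 2 ≤ p) (h : Nat.Coprime p q) :
    ¬ ((p : ℤ) * d ∣ (q : ℤ) * d) := by
  intro hh
  have e1 : (d : ℤ) ≠ 0 := by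
    have : (0 : ℤ) < d := by exact_mod_cast hd
    exact this.ne'
  have h1 := Int.dvd_of_mul_dvd_mul_right e1 hh
  have h2 : p ∣ q := by exact_mod_cast h1
  have := Nat.Coprime.eq_one_of_dvd h h2
  omega

/-- TODO. `T` encodes progressions `prog d i j` through 0 inside [-a, b] with at least three elements.
Proof: let P be the union of the pair sets. Call (d,i,j) of type 1 if i = 0 or j = 0 or gcd(i,j) = 1,
of type 2 otherwise (then i, j ≥ 2). Map type 1 to pairs in P: i = 0: (d, jd); j = 0: (-id, -d);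
coprime i, j ≥ 1: (-id, jd). This is injective, with image in P. Let W' be the set of pairs (y,z) in P of
the same sign such that the one of smaller absolute value does not divide the other; W' is disjoint
from the image. For each d let T2_d be the type 2 triples with first entry d; if it is not empty let
I, J be the maximum of i resp. of j over T2_d. Then T2_d ⊆ {d} × NP I J, so |T2_d| ≤ 1 + |W I| + |W J|
by `np_bound`, and W' contains the images of W J under (p,q) ↦ (pd,qd) and of W I under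
(p,q) ↦ (-qd,-pd) (these pairs have gcd d, so for different d the images are disjoint). The number of
d with T2_d nonempty is at most (a+b)/4, as 2d ≤ a, 2d ≤ b. Sum up. -/
theorem ap_count
    (np_bound : ∀ I J : ℕ, 1 ≤ I → 1 ≤ J → (NP I J).card ≤ 1 + (W I).card + (W J).card)
    (a b : ℕ) (T : Finset (ℕ × ℕ × ℕ))
    (hT : ∀ p ∈ T, 1 ≤ p.1 ∧ 2 ≤ p.2.1 + p.2.2 ∧ p.1 * p.2.1 ≤ a ∧ p.1 * p.2.2 ≤ b) :
    T.card ≤ (T.biUnion (fun p => prs (prog p.1 p.2.1 p.2.2))).card + (a + b) / 4 := by
  classical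
  obtain ⟨P, hP⟩ : ∃ P, P = T.biUnion (fun p => prs (prog p.1 p.2.1 p.2.2)) := ⟨_, rfl⟩
  rw [← hP]
  have memP : ∀ (t : ℕ × ℕ × ℕ), t ∈ T → ∀ q ∈ prs (prog t.1 t.2.1 t.2.2), q ∈ P := by
    intro t ht q hq
    rw [hP]
    exact Finset.mem_biUnion.2 ⟨t, ht, hq⟩
  have sT := Finset.card_filter_add_card_filter_not (s := T)
    (fun p : ℕ × ℕ × ℕ => p.2.1 = 0 ∨ p.2.2 = 0 ∨ Nat.Coprime p.2.1 p.2.2)
  have sP := Finset.card_filter_add_card_filter_not (s := P) apDv
  -- type 1
  have A : (T.filter (fun p : ℕ × ℕ × ℕ => p.2.1 = 0 ∨ p.2.2 = 0 ∨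
      Nat.Coprime p.2.1 p.2.2)).card ≤ (P.filter apDv).card := by
    apply Finset.card_le_card_of_injOn apPhi
    · rintro ⟨d, i, j⟩ h
      have h' := (Finset.mem_filter.1 (Finset.mem_coe.1 h))
      obtain ⟨t1, t2, t3, t4⟩ := hT _ h'.1
      apply Finset.mem_coe.2
      exact Finset.mem_filter.2 ⟨memP _ h'.1 _ (apPhi_mem t1 t2), apPhi_dv t1 t2⟩
    · rintro ⟨d, i, j⟩ h ⟨d', i', j'⟩ k e
      have h' := (Finset.mem_filter.1 (Finset.mem_coe.1 h))
      have k' := (Finset.mem_filter.1 (Finset.mem_coe.1 k))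
      obtain ⟨t1, t2, t3, t4⟩ := hT _ h'.1
      obtain ⟨u1, u2, u3, u4⟩ := hT _ k'.1
      exact apPhi_inj t1 u1 t2 u2 h'.2 k'.2 e
  -- type 2
  obtain ⟨T2, hT2⟩ : ∃ T2, T2 = T.filter (fun p : ℕ × ℕ × ℕ => ¬ (p.2.1 = 0 ∨ p.2.2 = 0 ∨
      Nat.Coprime p.2.1 p.2.2)) := ⟨_, rfl⟩
  obtain ⟨P2, hP2⟩ : ∃ P2, P2 = P.filter (fun q => ¬ apDv q) := ⟨_, rfl⟩
  rw [← hT2] at sT
  rw [← hP2] at sP
  have m2 : ∀ p ∈ T2, p ∈ T ∧ 2 ≤ p.2.1 ∧ 2 ≤ p.2.2 ∧ ¬ Nat.Coprime p.2.1 p.2.2 := by
    intro p hp
    rw [hT2, Finset.mem_filter, not_or, not_or] at hp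
    obtain ⟨h1, h2, h3, h4⟩ := hp
    refine ⟨h1, ?_, ?_, h4⟩
    · by_contra hc
      have : p.2.1 = 1 := by omega
      exact h4 (by rw [this]; exact Nat.coprime_one_left _)
    · by_contra hc
      have : p.2.2 = 1 := by omega
      exact h4 (by rw [this]; exact Nat.coprime_one_right _)
  have B : T2.card ≤ P2.card + (a + b) / 4 := by
    have s1 := Finset.card_eq_sum_card_image (fun p : ℕ × ℕ × ℕ => p.1) T2
    obtain ⟨D, hD⟩ : ∃ D, D = T2.image (fun p : ℕ × ℕ × ℕ => p.1) := ⟨_, rfl⟩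
    rw [← hD] at s1
    have s2 : ∀ d ∈ D, (T2.filter (fun p : ℕ × ℕ × ℕ => p.1 = d)).card ≤
        1 + (P2.filter (fun q => Int.gcd q.1 q.2 = d)).card := by
      intro d hdD
      rw [hD] at hdD
      obtain ⟨p0, hp0, hp0d⟩ := Finset.mem_image.1 hdD
      have ne : (T2.filter (fun p : ℕ × ℕ × ℕ => p.1 = d)).Nonempty :=
        ⟨p0, Finset.mem_filter.2 ⟨hp0, hp0d⟩⟩
      obtain ⟨x, hx, hxm⟩ := Finset.exists_max_image _ (fun p : ℕ × ℕ × ℕ => p.2.1) ne
      obtain ⟨y, hy, hym⟩ := Finset.exists_max_image _ (fun p : ℕ × ℕ × ℕ => p.2.2) ne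
      obtain ⟨hx1, hx2⟩ := Finset.mem_filter.1 hx
      obtain ⟨hy1, hy2⟩ := Finset.mem_filter.1 hy
      obtain ⟨x1, x2, x3, x4⟩ := m2 x hx1
      obtain ⟨y1, y2, y3, y4⟩ := m2 y hy1
      have hd : 1 ≤ d := by rw [← hx2]; exact (hT x x1).1
      have e1 : (0 : ℤ) < d := by exact_mod_cast hd
      have n1 : (T2.filter (fun p : ℕ × ℕ × ℕ => p.1 = d)).card ≤ (NP x.2.1 y.2.2).card := by
        apply Finset.card_le_card_of_injOn (fun p : ℕ × ℕ × ℕ => p.2)
        · intro p hp
          have hp' := Finset.mem_coe.1 hp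
          obtain ⟨r1, r2, r3, r4⟩ := m2 p (Finset.mem_filter.1 hp').1
          apply Finset.mem_coe.2
          unfold NP
          exact Finset.mem_filter.2 ⟨Finset.mem_product.2
            ⟨Finset.mem_Icc.2 ⟨le_trans (by norm_num) r2, hxm p hp'⟩,
              Finset.mem_Icc.2 ⟨le_trans (by norm_num) r3, hym p hp'⟩⟩, r4⟩
        · rintro ⟨p1, p2⟩ hp ⟨q1, q2⟩ hq e
          have hp' := (Finset.mem_filter.1 (Finset.mem_coe.1 hp)).2
          have hq' := (Finset.mem_filter.1 (Finset.mem_coe.1 hq)).2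
          dsimp only at hp' hq' e
          rw [hp', hq', e]
      have n2 := np_bound x.2.1 y.2.2 (by omega) (by omega)
      have n3 : (W x.2.1).card + (W y.2.2).card ≤
          (P2.filter (fun q => Int.gcd q.1 q.2 = d)).card := by
        apply ap_W_card _ d _ _ hd
        · intro p hp
          obtain ⟨u1, u2, u3, u4⟩ := ap_mem_W hp
          have w0 : (0 : ℤ) < p.1 := by exact_mod_cast (by omega : 0 < p.1)
          have w1 : (p.1 : ℤ) < p.2 := by exact_mod_cast u2
          have w2 : (p.2 : ℤ) ≤ y.2.2 := by exact_mod_cast u3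
          have v0 := mul_pos w0 e1
          have v1 : (0 : ℤ) < p.2 * d := mul_pos (by linarith) e1
          rw [Finset.mem_filter, hP2, Finset.mem_filter]
          refine ⟨⟨?_, ?_⟩, ?_⟩
          · apply memP y y1
            rw [hy2]
            exact ap_count_prs hd (by linarith [Int.natCast_nonneg y.2.1]) w1 w2 w0.ne'
              (by linarith)
          · rintro (⟨k1, k2⟩ | ⟨k1, k2⟩ | ⟨k1, k2⟩)
            · exact ap_not_dvd hd u1 u4 k2
            · dsimp only at k1; linarith
            · dsimp only at k1; linarith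
          · dsimp only
            rw [Int.gcd_mul_right, Int.gcd_natCast_natCast, u4.gcd_eq_one, one_mul,
              Int.natAbs_natCast]
        · intro p hp
          obtain ⟨u1, u2, u3, u4⟩ := ap_mem_W hp
          have w0 : (0 : ℤ) < p.1 := by exact_mod_cast (by omega : 0 < p.1)
          have w1 : (p.1 : ℤ) < p.2 := by exact_mod_cast u2
          have w2 : (p.2 : ℤ) ≤ x.2.1 := by exact_mod_cast u3
          have v0 := mul_pos w0 e1
          have v1 : (0 : ℤ) < p.2 * d := mul_pos (by linarith) e1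
          rw [Finset.mem_filter, hP2, Finset.mem_filter]
          refine ⟨⟨?_, ?_⟩, ?_⟩
          · apply memP x x1
            rw [hx2]
            exact ap_count_prs hd (by linarith) (by linarith)
              (by linarith [Int.natCast_nonneg x.2.2]) (by linarith) (by linarith)
          · rintro (⟨k1, k2⟩ | ⟨k1, k2⟩ | ⟨k1, k2⟩)
            · dsimp only at k1; linarith
            · dsimp only at k2
              rw [neg_mul, neg_mul, neg_dvd, dvd_neg] at k2
              exact ap_not_dvd hd u1 u4 k2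
            · dsimp only at k2; linarith
          · dsimp only
            rw [Int.gcd_mul_right, Int.gcd_neg, Int.neg_gcd, Int.gcd_natCast_natCast,
              Nat.gcd_comm, u4.gcd_eq_one, one_mul, Int.natAbs_natCast]
      omega
    have s3 : ∑ d ∈ D, (P2.filter (fun q => Int.gcd q.1 q.2 = d)).card ≤ P2.card := by
      rw [← Finset.card_biUnion]
      · apply Finset.card_le_card
        intro q hq
        obtain ⟨d, _, hd⟩ := Finset.mem_biUnion.1 hq
        exact (Finset.mem_filter.1 hd).1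
      · intro d _ d' _ hne
        rw [Function.onFun, Finset.disjoint_left]
        intro q hq hq'
        exact hne ((Finset.mem_filter.1 hq).2.symm.trans (Finset.mem_filter.1 hq').2)
    have s4 : D.card ≤ (a + b) / 4 := by
      have : D ⊆ Finset.Icc 1 ((a + b) / 4) := by
        intro d hd
        rw [hD] at hd
        obtain ⟨p, hp, rfl⟩ := Finset.mem_image.1 hd
        obtain ⟨h1, h2, h3, h4⟩ := m2 p hp
        obtain ⟨k1, k2, k3, k4⟩ := hT p h1
        have l1 : p.1 * 2 ≤ p.1 * p.2.1 := Nat.mul_le_mul_left _ h2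
        have l2 : p.1 * 2 ≤ p.1 * p.2.2 := Nat.mul_le_mul_left _ h3
        rw [Finset.mem_Icc]
        exact ⟨k1, by omega⟩
      have := Finset.card_le_card this
      rwa [Nat.card_Icc, Nat.add_sub_cancel] at this
    calc T2.card = ∑ d ∈ D, (T2.filter (fun p : ℕ × ℕ × ℕ => p.1 = d)).card := s1
      _ ≤ ∑ d ∈ D, (1 + (P2.filter (fun q => Int.gcd q.1 q.2 = d)).card) :=
          Finset.sum_le_sum s2
      _ = D.card + ∑ d ∈ D, (P2.filter (fun q => Int.gcd q.1 q.2 = d)).card := by
          rw [Finset.sum_add_distrib, Finset.sum_const, smul_eq_mul, mul_one]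
      _ ≤ P2.card + (a + b) / 4 := by omega
  omega

end Pool.Agent.H483S
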