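import Pool.Agent.H483S.Hull

set_option autoImplicit false

namespace Pool.Agent.H483S

open Finset

theorem mem_prog {d i j : ℕ} {w : ℤ} :
    w ∈ prog d i j ↔ ∃ k : ℤ, (-(i : ℤ) ≤ k ∧ k ≤ j) ∧ k * d = w := by
  unfold prog
  simp only [Finset.mem_image, Finset.mem_Icc]

theorem mem_prs {A : Finset ℤ} {q : ℤ × ℤ} :
    q ∈ prs A ↔ (q.1 ∈ A ∧ q.2 ∈ A) ∧ q.1 < q.2 ∧ q.1 ≠ 0 ∧ q.2 ≠ 0 := by
  unfold prs
  simp only [Finset.mem_filter, Finset.mem_product]

theorem card_prog_le (d i j : ℕ) : (prog d i j).card ≤ i + j + 1 := by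
  unfold prog
  refine card_image_le.trans ?_
  rw [Int.card_Icc]
  omega

/-- the private pair of a set that is not a `prog` -/
theorem exists_private {A : Finset ℤ} (h0 : (0 : ℤ) ∈ A) (hne : ∃ y ∈ A, y ≠ 0)
    (hA : ¬ ∃ d i j : ℕ, 1 ≤ d ∧ A = prog d i j) :
    ∃ q : ℤ × ℤ, q ∈ prs A ∧ ∀ B : Finset ℤ, (0 : ℤ) ∈ B → IsAP (A ∩ B) → q ∉ prs B := by
  have h1 : ¬ ∀ y ∈ A, ∀ z ∈ A, y ≠ 0 → z ≠ 0 → ∀ w : ℤ, ((Int.gcd y z : ℕ) : ℤ) ∣ w →
      min 0 (min y z) ≤ w → w ≤ max 0 (max y z) → w ∈ A := fun h => hA (prog_of_closed h0 hne h)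
  -- a violating pair, in increasing order
  have h2 : ∃ y ∈ A, ∃ z ∈ A, y < z ∧ y ≠ 0 ∧ z ≠ 0 ∧ ∃ w : ℤ, ((Int.gcd y z : ℕ) : ℤ) ∣ w ∧
      min 0 (min y z) ≤ w ∧ w ≤ max 0 (max y z) ∧ w ∉ A := by
    push Not at h1
    obtain ⟨y, hy, z, hz, hy0, hz0, w, hw, h3, h4, h5⟩ := h1
    rcases lt_trichotomy y z with h | h | h
    · exact ⟨y, hy, z, hz, h, hy0, hz0, w, hw, h3, h4, h5⟩
    · subst h
      exfalso
      apply h5
      rw [Int.gcd_self] at hw
      rw [min_self] at h3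
      rw [max_self] at h4
      obtain ⟨k, hk⟩ := hw
      rcases lt_or_gt_of_ne hy0 with h | h
      · have e1 : ((y.natAbs : ℕ) : ℤ) = -y := by omega
        rw [min_eq_right h.le] at h3
        rw [max_eq_left h.le] at h4
        rw [e1] at hk
        have k1 : 0 ≤ k ∨ k ≤ -1 := by omega
        have k0 : k ≤ 0 := by by_contra hc; push Not at hc; nlinarith
        have k2 : -1 ≤ k := by by_contra hc; push Not at hc; nlinarith
        have k3 : k = 0 ∨ k = -1 := by omega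
        rcases k3 with rfl | rfl
        · simpa [hk] using h0
        · have : w = y := by rw [hk]; ring
          rwa [this]
      · have e1 : ((y.natAbs : ℕ) : ℤ) = y := by omega
        rw [min_eq_left h.le] at h3
        rw [max_eq_right h.le] at h4
        rw [e1] at hk
        have k0 : 0 ≤ k := by by_contra hc; push Not at hc; nlinarith
        have k2 : k ≤ 1 := by by_contra hc; push Not at hc; nlinarith
        have k3 : k = 0 ∨ k = 1 := by omega
        rcases k3 with rfl | rfl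
        · simpa [hk] using h0
        · have : w = y := by rw [hk]; ring
          rwa [this]
    · refine ⟨z, hz, y, hy, h, hz0, hy0, w, by rwa [Int.gcd_comm], ?_, ?_, h5⟩
      · rwa [min_comm z y]
      · rwa [max_comm z y]
  obtain ⟨y, hy, z, hz, hlt, hy0, hz0, w, hw, h3, h4, h5⟩ := h2
  refine ⟨(y, z), mem_prs.2 ⟨⟨hy, hz⟩, hlt, hy0, hz0⟩, fun B hB hAP hq => ?_⟩
  obtain ⟨⟨hyB, hzB⟩, -⟩ := mem_prs.1 hq
  have g0 : (0 : ℤ) ∈ A ∩ B := mem_inter.2 ⟨h0, hB⟩
  have gy : y ∈ A ∩ B := mem_inter.2 ⟨hy, hyB⟩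
  have gz : z ∈ A ∩ B := mem_inter.2 ⟨hz, hzB⟩
  have gm : min 0 (min y z) ∈ A ∩ B := by
    rcases min_choice (0 : ℤ) (min y z) with e | e
    · rw [e]; exact g0
    · rw [e]
      rcases min_choice y z with e | e <;> rw [e]
      · exact gy
      · exact gz
  have gM : max 0 (max y z) ∈ A ∩ B := by
    rcases max_choice (0 : ℤ) (max y z) with e | e
    · rw [e]; exact g0
    · rw [e]
      rcases max_choice y z with e | e <;> rw [e]
      · exact gy
      · exact gz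
  exact h5 (mem_inter.1 (hAP.hull g0 gy gz hw gm gM h3 h4)).1

/-- the number of pairs `y < z` of nonzero elements of `[-a, b]` -/
theorem card_prs_le (a b : ℕ) : (prs (Icc (-(a : ℤ)) b)).card ≤ (a + b).choose 2 := by
  classical
  have hX : ((Icc (-(a : ℤ)) b).erase 0).card = a + b := by
    rw [card_erase_of_mem (by simp), Int.card_Icc]
    omega
  rw [← hX, ← card_powersetCard]
  refine card_le_card_of_injOn (fun q => ({q.1, q.2} : Finset ℤ)) ?_ ?_
  · intro q hq
    obtain ⟨⟨h1, h2⟩, h3, h4, h5⟩ := mem_prs.1 hq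
    simp only [mem_coe, mem_powersetCard]
    refine ⟨?_, card_pair h3.ne⟩
    intro w hw
    simp only [mem_insert, mem_singleton] at hw
    rcases hw with rfl | rfl
    · exact mem_erase.2 ⟨h4, h1⟩
    · exact mem_erase.2 ⟨h5, h2⟩
  · intro q hq r hr h
    obtain ⟨-, h3, -⟩ := mem_prs.1 (mem_coe.1 hq)
    obtain ⟨-, h3', -⟩ := mem_prs.1 (mem_coe.1 hr)
    simp only at h
    have e1 : q.1 ∈ ({r.1, r.2} : Finset ℤ) := by rw [← h]; simp
    have e2 : q.2 ∈ ({r.1, r.2} : Finset ℤ) := by rw [← h]; simp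
    simp only [mem_insert, mem_singleton] at e1 e2
    apply Prod.ext
    · rcases e1 with e1 | e1 <;> rcases e2 with e2 | e2 <;> omega
    · rcases e1 with e1 | e1 <;> rcases e2 with e2 | e2 <;> omega

/-- the bound for the members with at least three elements, for families through `0` -/
theorem star_big
    (ap_count : ∀ (a b : ℕ) (T : Finset (ℕ × ℕ × ℕ)),
      (∀ p ∈ T, 1 ≤ p.1 ∧ 2 ≤ p.2.1 + p.2.2 ∧ p.1 * p.2.1 ≤ a ∧ p.1 * p.2.2 ≤ b) →
      T.card ≤ (T.biUnion (fun p => prs (prog p.1 p.2.1 p.2.2))).card + (a + b) / 4)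
    (a b : ℕ) (F : Finset (Finset ℤ)) (hsub : ∀ A ∈ F, A ⊆ Icc (-(a : ℤ)) b)
    (h0 : ∀ A ∈ F, (0 : ℤ) ∈ A) (hint : ∀ A ∈ F, ∀ B ∈ F, A ≠ B → IsAP (A ∩ B)) :
    (F.filter (fun A => ¬ A.card ≤ 2)).card ≤ (a + b).choose 2 + (a + b) / 4 := by
  classical
  set F2 := F.filter (fun A => ¬ A.card ≤ 2) with hF2
  -- the progressions and the other sets
  set FA := F2.filter (fun A => ∃ d i j : ℕ, 1 ≤ d ∧ A = prog d i j) with hFA
  set FN := F2.filter (fun A => ¬ ∃ d i j : ℕ, 1 ≤ d ∧ A = prog d i j) with hFN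
  have hsplit2 : FA.card + FN.card = F2.card := card_filter_add_card_filter_not _
  have hF2F : ∀ A ∈ F2, A ∈ F ∧ 3 ≤ A.card := by
    intro A hA
    obtain ⟨h1, h2⟩ := mem_filter.1 hA
    exact ⟨h1, by omega⟩
  set P := FA.biUnion prs with hP
  -- progressions
  have hAP : FA.card ≤ P.card + (a + b) / 4 := by
    have hch : ∀ A : Finset ℤ, ∃ t : ℕ × ℕ × ℕ, A ∈ FA → 1 ≤ t.1 ∧ A = prog t.1 t.2.1 t.2.2 := by
      intro A
      by_cases hA : A ∈ FA
      · obtain ⟨-, d, i, j, h1, h2⟩ := mem_filter.1 hA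
        exact ⟨(d, i, j), fun _ => ⟨h1, h2⟩⟩
      · exact ⟨(0, 0, 0), fun h => absurd h hA⟩
    choose t ht using hch
    have hinj : (FA.image t).card = FA.card := by
      apply card_image_of_injOn
      intro A hA B hB h
      rw [(ht A (mem_coe.1 hA)).2, (ht B (mem_coe.1 hB)).2, h]
    have h1 := ap_count a b (FA.image t) (by
      intro p hp
      obtain ⟨A, hA, rfl⟩ := mem_image.1 hp
      obtain ⟨k1, k2⟩ := ht A hA
      obtain ⟨hAF, hA3⟩ := hF2F A (mem_filter.1 hA).1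
      have hs := hsub A hAF
      refine ⟨k1, ?_, ?_, ?_⟩
      · have := card_prog_le (t A).1 (t A).2.1 (t A).2.2
        rw [← k2] at this
        omega
      · have hm : (-((t A).2.1 : ℤ)) * ((t A).1 : ℤ) ∈ A := by
          rw [k2, ← k2]
          rw [k2]
          exact mem_prog.2 ⟨_, ⟨le_rfl, by omega⟩, by rw [← k2]⟩
        have := (mem_Icc.1 (hs hm)).1
        have h5 : (((t A).1 * (t A).2.1 : ℕ) : ℤ) ≤ a := by push_cast; nlinarith
        exact_mod_cast h5
      · have hm : (((t A).2.2 : ℤ)) * ((t A).1 : ℤ) ∈ A := by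
          rw [k2]
          exact mem_prog.2 ⟨_, ⟨by omega, le_rfl⟩, by rw [← k2]⟩
        have := (mem_Icc.1 (hs hm)).2
        have h5 : (((t A).1 * (t A).2.2 : ℕ) : ℤ) ≤ b := by push_cast; nlinarith
        exact_mod_cast h5)
    rw [hinj] at h1
    have h2 : (FA.image t).biUnion (fun p => prs (prog p.1 p.2.1 p.2.2)) = P := by
      rw [hP, image_biUnion]
      refine biUnion_congr rfl ?_
      intro A hA
      rw [← (ht A hA).2]
    rwa [h2] at h1
  -- the other sets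
  have hN : ∀ A : Finset ℤ, ∃ q : ℤ × ℤ, A ∈ FN → q ∈ prs A ∧
      ∀ B : Finset ℤ, (0 : ℤ) ∈ B → IsAP (A ∩ B) → q ∉ prs B := by
    intro A
    by_cases hA : A ∈ FN
    · obtain ⟨hA2, hnot⟩ := mem_filter.1 hA
      obtain ⟨hAF, hA3⟩ := hF2F A hA2
      have hne : ∃ y ∈ A, y ≠ 0 := by
        by_contra hc
        push Not at hc
        have : A ⊆ {0} := fun y hy => by simp [hc y hy]
        have := card_le_card this
        simp at this
        omega
      obtain ⟨q, hq⟩ := exists_private (h0 A hAF) hne hnot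
      exact ⟨q, fun _ => hq⟩
    · exact ⟨(0, 0), fun h => absurd h hA⟩
  choose π hπ using hN
  have hFNF : ∀ A ∈ FN, A ∈ F := fun A hA => (hF2F A (mem_filter.1 hA).1).1
  have hFAF : ∀ A ∈ FA, A ∈ F := fun A hA => (hF2F A (mem_filter.1 hA).1).1
  have hinj : (FN.image π).card = FN.card := by
    apply card_image_of_injOn
    intro A hA B hB h
    by_contra hne
    have hA' := mem_coe.1 hA
    have hB' := mem_coe.1 hB
    refine (hπ A hA').2 B (h0 B (hFNF B hB')) (hint A (hFNF A hA') B (hFNF B hB') hne) ?_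
    rw [h]
    exact (hπ B hB').1
  have hdisj : Disjoint P (FN.image π) := by
    rw [Finset.disjoint_left]
    intro q hq hq'
    obtain ⟨B, hB, hqB⟩ := mem_biUnion.1 hq
    obtain ⟨A, hA, rfl⟩ := mem_image.1 hq'
    have hne : A ≠ B := by
      rintro rfl
      exact (mem_filter.1 hA).2 (mem_filter.1 hB).2
    exact (hπ A hA).2 B (h0 B (hFAF B hB)) (hint A (hFNF A hA) B (hFAF B hB) hne) hqB
  have hsubU : P ∪ FN.image π ⊆ prs (Icc (-(a : ℤ)) b) := by
    intro q hq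
    have hmono : ∀ A ∈ F, prs A ⊆ prs (Icc (-(a : ℤ)) b) := by
      intro A hA r hr
      obtain ⟨⟨h1, h2⟩, h3⟩ := mem_prs.1 hr
      exact mem_prs.2 ⟨⟨hsub A hA h1, hsub A hA h2⟩, h3⟩
    rcases mem_union.1 hq with h | h
    · obtain ⟨B, hB, hqB⟩ := mem_biUnion.1 h
      exact hmono B (hFAF B hB) hqB
    · obtain ⟨A, hA, rfl⟩ := mem_image.1 h
      exact hmono A (hFNF A hA) (hπ A hA).1
  have hU := (card_le_card hsubU).trans (card_prs_le a b)
  rw [card_union_of_disjoint hdisj, hinj] at hU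
  omega

end Pool.Agent.H483S
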