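import Pool.Agent.H483S.Defs

set_option autoImplicit false

namespace Pool.Agent.H483S

open Finset











lemma cs_ap1 (x : ℤ) : IsAP {x} := by
  refine ⟨x, 1, 1, le_rfl, le_rfl, ?_⟩
  ext z
  simp only [mem_singleton, mem_image, mem_range]
  constructor
  · rintro rfl; exact ⟨0, by norm_num, by simp⟩
  · rintro ⟨i, hi, rfl⟩
    have : i = 0 := by omega
    subst this; simp

lemma cs_ap2 (x e : ℤ) (he : 1 ≤ e) : IsAP {x, x + e} := by
  refine ⟨x, e, 2, he, by norm_num, ?_⟩
  ext z
  simp only [mem_insert, mem_singleton, mem_image, mem_range]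
  constructor
  · rintro (rfl | rfl)
    · exact ⟨0, by norm_num, by simp⟩
    · exact ⟨1, by norm_num, by simp⟩
  · rintro ⟨i, hi, rfl⟩
    interval_cases i <;> simp

lemma cs_ap3 (x e : ℤ) (he : 1 ≤ e) : IsAP {x, x + e, x + 2 * e} := by
  refine ⟨x, e, 3, he, by norm_num, ?_⟩
  ext z
  simp only [mem_insert, mem_singleton, mem_image, mem_range]
  constructor
  · rintro (rfl | rfl | rfl)
    · exact ⟨0, by norm_num, by simp⟩
    · exact ⟨1, by norm_num, by simp⟩
    · exact ⟨2, by norm_num, by simp⟩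
  · rintro ⟨i, hi, rfl⟩
    interval_cases i <;> simp

lemma cs_ap4 (x e : ℤ) (he : 1 ≤ e) : IsAP {x, x + e, x + 2 * e, x + 3 * e} := by
  refine ⟨x, e, 4, he, by norm_num, ?_⟩
  ext z
  simp only [mem_insert, mem_singleton, mem_image, mem_range]
  constructor
  · rintro (rfl | rfl | rfl | rfl)
    · exact ⟨0, by norm_num, by simp⟩
    · exact ⟨1, by norm_num, by simp⟩
    · exact ⟨2, by norm_num, by simp⟩
    · exact ⟨3, by norm_num, by simp⟩
  · rintro ⟨i, hi, rfl⟩
    interval_cases i <;> simp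

lemma cs_sub (x e : ℤ) (he : 1 ≤ e) (S : Finset ℤ) (hx : x ∈ S)
    (hS : ∀ z ∈ S, z = x - e ∨ z = x ∨ z = x + e) : IsAP S := by
  by_cases h1 : x - e ∈ S
  · by_cases h2 : x + e ∈ S
    · have : S = {x - e, x - e + e, x - e + 2 * e} := by
        ext z
        simp only [mem_insert, mem_singleton]
        constructor
        · intro hz; rcases hS z hz with h | h | h <;> omega
        · intro hz
          have : z = x - e ∨ z = x ∨ z = x + e := by omega
          rcases this with rfl | rfl | rfl <;> assumption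
      rw [this]; exact cs_ap3 _ _ he
    · have : S = {x - e, x - e + e} := by
        ext z
        simp only [mem_insert, mem_singleton]
        constructor
        · intro hz
          rcases hS z hz with h | h | h
          · omega
          · omega
          · subst h; exact absurd hz h2
        · intro hz
          have : z = x - e ∨ z = x := by omega
          rcases this with rfl | rfl <;> assumption
      rw [this]; exact cs_ap2 _ _ he
  · by_cases h2 : x + e ∈ S
    · have : S = {x, x + e} := by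
        ext z
        simp only [mem_insert, mem_singleton]
        constructor
        · intro hz
          rcases hS z hz with h | h | h
          · subst h; exact absurd hz h1
          · omega
          · omega
        · intro hz
          rcases hz with rfl | rfl <;> assumption
      rw [this]; exact cs_ap2 _ _ he
    · have : S = {x} := by
        ext z
        simp only [mem_singleton]
        constructor
        · intro hz
          rcases hS z hz with h | h | h
          · subst h; exact absurd hz h1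
          · omega
          · subst h; exact absurd hz h2
        · rintro rfl; exact hx
      rw [this]; exact cs_ap1 _

lemma cs_le2 (x : ℤ) (S : Finset ℤ) (hx : x ∈ S) (hc : S.card ≤ 2) : IsAP S := by
  have hc' : (S.erase x).card ≤ 1 := by
    rw [Finset.card_erase_of_mem hx]; omega
  rw [Finset.card_le_one_iff] at hc'
  by_cases h : ∃ y, y ∈ S.erase x
  · obtain ⟨y, hy⟩ := h
    have hyx : y ≠ x := (Finset.mem_erase.mp hy).1
    have hyS : y ∈ S := (Finset.mem_erase.mp hy).2
    have hz : ∀ z ∈ S, z = x ∨ z = y := by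
      intro z hz
      by_cases hzx : z = x
      · exact Or.inl hzx
      · exact Or.inr (hc' (Finset.mem_erase.mpr ⟨hzx, hz⟩) hy)
    rcases lt_or_gt_of_ne hyx with hlt | hgt
    · apply cs_sub x (x - y) (by omega) S hx
      intro z hzS
      rcases hz z hzS with h | h <;> omega
    · apply cs_sub x (y - x) (by omega) S hx
      intro z hzS
      rcases hz z hzS with h | h <;> omega
  · apply cs_sub x 1 le_rfl S hx
    intro z hzS
    by_cases hzx : z = x
    · exact Or.inr (Or.inl hzx)
    · exact absurd ⟨z, Finset.mem_erase.mpr ⟨hzx, hzS⟩⟩ h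

def E1 (x : ℤ) (d : ℕ) : Finset ℤ := {x - 2 * d, x, x + d}
def E2 (x : ℤ) (d : ℕ) : Finset ℤ := {x - d, x, x + 2 * d}
def B1 (x : ℤ) (d : ℕ) : Finset ℤ := {x - 2 * d, x - d, x, x + d}
def B2 (x : ℤ) (d : ℕ) : Finset ℤ := {x - d, x, x + d, x + 2 * d}
def B3 (x : ℤ) (d : ℕ) : Finset ℤ := {x - 2 * d, x - d, x, x + d, x + 2 * d}

/-- big sets -/
def IsBig (x : ℤ) (d : ℕ) (A : Finset ℤ) : Prop := A = B1 x d ∨ A = B2 x d ∨ A = B3 x d

lemma big_sub {x : ℤ} {d : ℕ} {A : Finset ℤ} (h : IsBig x d A) :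
    ∀ z ∈ A, z = x - 2 * d ∨ z = x - d ∨ z = x ∨ z = x + d ∨ z = x + 2 * d := by
  rcases h with rfl | rfl | rfl <;> intro z hz <;>
    simp only [B1, B2, B3, mem_insert, mem_singleton] at hz <;> omega

lemma big_x {x : ℤ} {d : ℕ} {A : Finset ℤ} (h : IsBig x d A) : x ∈ A := by
  rcases h with rfl | rfl | rfl <;> simp [B1, B2, B3]

lemma big_card {x : ℤ} {d : ℕ} (hd : 1 ≤ d) {A : Finset ℤ} (h : IsBig x d A) : 4 ≤ A.card := by
  have c1 : (B1 x d).card = 4 := by
    unfold B1
    rw [Finset.card_insert_of_notMem, Finset.card_insert_of_notMem, Finset.card_insert_of_notMem,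
      Finset.card_singleton] <;> simp only [mem_insert, mem_singleton] <;> omega
  have c2 : (B2 x d).card = 4 := by
    unfold B2
    rw [Finset.card_insert_of_notMem, Finset.card_insert_of_notMem, Finset.card_insert_of_notMem,
      Finset.card_singleton] <;> simp only [mem_insert, mem_singleton] <;> omega
  have c3 : (B1 x d) ⊆ (B3 x d) := by
    intro z hz
    simp only [B1, B3, mem_insert, mem_singleton] at hz ⊢
    omega
  rcases h with rfl | rfl | rfl
  · omega
  · omega
  · have := Finset.card_le_card c3; omega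

lemma big_big {x : ℤ} {d d' : ℕ} (hd : 1 ≤ d) (hd' : 1 ≤ d') {A B : Finset ℤ} (hA : IsBig x d A)
    (hB : IsBig x d' B) (hAB : A ≠ B) : IsAP (A ∩ B) := by
  have hxA := big_x hA
  have hxB := big_x hB
  rcases lt_trichotomy d d' with h | h | h
  · apply cs_sub x (2 * d) (by omega) _ (mem_inter.mpr ⟨hxA, hxB⟩)
    intro z hz
    rw [mem_inter] at hz
    have h1 := big_sub hA z hz.1
    have h2 := big_sub hB z hz.2
    omega
  · subst h
    have k1 : B1 x d ∩ B2 x d = {x - d, x - d + d, x - d + 2 * d} := by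
      ext z; simp only [B1, B2, mem_inter, mem_insert, mem_singleton]; omega
    have k2 : B1 x d ∩ B3 x d = {x - 2 * d, x - 2 * d + d, x - 2 * d + 2 * d, x - 2 * d + 3 * d} := by
      ext z; simp only [B1, B3, mem_inter, mem_insert, mem_singleton]; omega
    have k3 : B2 x d ∩ B3 x d = {x - d, x - d + d, x - d + 2 * d, x - d + 3 * d} := by
      ext z; simp only [B2, B3, mem_inter, mem_insert, mem_singleton]; omega
    have hd1 : (1 : ℤ) ≤ d := by exact_mod_cast hd
    rcases hA with rfl | rfl | rfl <;> rcases hB with rfl | rfl | rfl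
    · exact absurd rfl hAB
    · rw [k1]; exact cs_ap3 _ _ hd1
    · rw [k2]; exact cs_ap4 _ _ hd1
    · rw [inter_comm, k1]; exact cs_ap3 _ _ hd1
    · exact absurd rfl hAB
    · rw [k3]; exact cs_ap4 _ _ hd1
    · rw [inter_comm, k2]; exact cs_ap4 _ _ hd1
    · rw [inter_comm, k3]; exact cs_ap4 _ _ hd1
    · exact absurd rfl hAB
  · apply cs_sub x (2 * d') (by omega) _ (mem_inter.mpr ⟨hxA, hxB⟩)
    intro z hz
    rw [mem_inter] at hz
    have h1 := big_sub hA z hz.1
    have h2 := big_sub hB z hz.2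
    omega

lemma small_big {x : ℤ} {d : ℕ} (hd : 1 ≤ d) {A B : Finset ℤ} (hxA : x ∈ A) (hA3 : A.card ≤ 3)
    (h1 : A ≠ E1 x d) (h2 : A ≠ E2 x d) (hB : IsBig x d B) : IsAP (A ∩ B) := by
  have hxB := big_x hB
  have hx : x ∈ A ∩ B := mem_inter.mpr ⟨hxA, hxB⟩
  by_cases hc : (A ∩ B).card ≤ 2
  · exact cs_le2 x _ hx hc
  have hAB : A ∩ B = A := Finset.eq_of_subset_of_card_le inter_subset_left (by omega)
  rw [hAB] at hc ⊢
  have hsub : ∀ z ∈ A, z = x - 2 * d ∨ z = x - d ∨ z = x ∨ z = x + d ∨ z = x + 2 * d := by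
    intro z hz
    rw [← hAB, mem_inter] at hz
    exact big_sub hB z hz.2
  have hc2 : (A.erase x).card = 2 := by
    rw [Finset.card_erase_of_mem hxA]; omega
  obtain ⟨y, z, hyz, hE⟩ := Finset.card_eq_two.mp hc2
  -- wlog `y < z`
  obtain ⟨y, z, hyz, hE⟩ : ∃ y z, y < z ∧ A.erase x = {y, z} := by
    rcases lt_or_gt_of_ne hyz with h | h
    · exact ⟨y, z, h, hE⟩
    · exact ⟨z, y, h, by rw [hE, Finset.pair_comm]⟩
  have hy : y ∈ A.erase x := by rw [hE]; simp
  have hz : z ∈ A.erase x := by rw [hE]; simp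
  have hyx := (Finset.mem_erase.mp hy).1
  have hzx := (Finset.mem_erase.mp hz).1
  have hy5 := hsub y (Finset.mem_erase.mp hy).2
  have hz5 := hsub z (Finset.mem_erase.mp hz).2
  have hA : A = {x, y, z} := by rw [← Finset.insert_erase hxA, hE]
  have hmem : ∀ t, t ∈ A ↔ t = x ∨ t = y ∨ t = z := by
    intro t; rw [hA]; simp only [mem_insert, mem_singleton]
  have hd1 : (1 : ℤ) ≤ d := by exact_mod_cast hd
  have hne1 : ¬ (y = x - 2 * d ∧ z = x + d) := by
    rintro ⟨ha, hb⟩
    apply h1
    ext t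
    rw [hmem]; simp only [E1, mem_insert, mem_singleton]; omega
  have hne2 : ¬ (y = x - d ∧ z = x + 2 * d) := by
    rintro ⟨ha, hb⟩
    apply h2
    ext t
    rw [hmem]; simp only [E2, mem_insert, mem_singleton]; omega
  have cases4 : (y = x - 2 * d ∧ z = x - d) ∨ (y = x - 2 * d ∧ z = x + 2 * d) ∨
      (y = x - d ∧ z = x + d) ∨ (y = x + d ∧ z = x + 2 * d) := by omega
  rcases cases4 with ⟨ha, hb⟩ | ⟨ha, hb⟩ | ⟨ha, hb⟩ | ⟨ha, hb⟩
  · have : A = {x - 2 * d, x - 2 * d + d, x - 2 * d + 2 * d} := by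
      ext t; rw [hmem]; simp only [mem_insert, mem_singleton]; omega
    rw [this]; exact cs_ap3 _ _ hd1
  · have : A = {x - 2 * d, x - 2 * d + (2 * d), x - 2 * d + 2 * (2 * d)} := by
      ext t; rw [hmem]; simp only [mem_insert, mem_singleton]; omega
    rw [this]; exact cs_ap3 _ _ (by omega)
  · have : A = {x - d, x - d + d, x - d + 2 * d} := by
      ext t; rw [hmem]; simp only [mem_insert, mem_singleton]; omega
    rw [this]; exact cs_ap3 _ _ hd1
  · have : A = {x, x + d, x + 2 * d} := by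
      ext t; rw [hmem]; simp only [mem_insert, mem_singleton]; omega
    rw [this]; exact cs_ap3 _ _ hd1

lemma small_small {x : ℤ} {A B : Finset ℤ} (hxA : x ∈ A) (hxB : x ∈ B) (hA3 : A.card ≤ 3)
    (hB3 : B.card ≤ 3) (hAB : A ≠ B) : IsAP (A ∩ B) := by
  apply cs_le2 x _ (mem_inter.mpr ⟨hxA, hxB⟩)
  by_contra hc
  have e1 : A ∩ B = A := Finset.eq_of_subset_of_card_le inter_subset_left (by omega)
  have e2 : A ∩ B = B := Finset.eq_of_subset_of_card_le inter_subset_right (by omega)
  exact hAB (e1.symm.trans e2)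

/-- the small sets -/
noncomputable def Sm (N : ℕ) (x : ℤ) : Finset (Finset ℤ) :=
  ((Icc 1 (N : ℤ)).powerset).filter (fun A => x ∈ A ∧ A.card ≤ 3)

lemma Sm_card (N : ℕ) (hN : 1 ≤ N) (x : ℤ) (hx : x ∈ Icc 1 (N : ℤ)) :
    N.choose 2 + 1 ≤ (Sm N x).card := by
  set U := (Icc 1 (N : ℤ)).erase x with hU
  have hUc : U.card = N - 1 := by
    rw [hU, Finset.card_erase_of_mem hx, Int.card_Icc]; simp
  set P := U.powersetCard 0 ∪ (U.powersetCard 1 ∪ U.powersetCard 2) with hP
  have hPc : P.card = 1 + ((N - 1) + (N - 1).choose 2) := by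
    rw [hP, Finset.card_union_of_disjoint, Finset.card_union_of_disjoint, Finset.card_powersetCard,
      Finset.card_powersetCard, Finset.card_powersetCard, hUc]
    · simp
    · rw [Finset.disjoint_left]
      intro a ha hb
      rw [Finset.mem_powersetCard] at ha hb
      omega
    · rw [Finset.disjoint_left]
      intro a ha hb
      rw [Finset.mem_union, Finset.mem_powersetCard, Finset.mem_powersetCard] at hb
      rw [Finset.mem_powersetCard] at ha
      omega
  have hPmem : ∀ S ∈ P, S ⊆ U ∧ S.card ≤ 2 := by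
    intro S hS
    rw [hP, mem_union, mem_union, mem_powersetCard, mem_powersetCard, mem_powersetCard] at hS
    rcases hS with h | h | h
    · exact ⟨h.1, by omega⟩
    · exact ⟨h.1, by omega⟩
    · exact ⟨h.1, by omega⟩
  have hinj : Set.InjOn (fun S : Finset ℤ => insert x S) (P : Set (Finset ℤ)) := by
    intro S hS S' hS' h
    have hxS : x ∉ S := fun hh => by
      have := (hPmem S hS).1 hh
      rw [hU] at this; exact (Finset.mem_erase.mp this).1 rfl
    have hxS' : x ∉ S' := fun hh => by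
      have := (hPmem S' hS').1 hh
      rw [hU] at this; exact (Finset.mem_erase.mp this).1 rfl
    have h' : insert x S = insert x S' := h
    rw [← Finset.erase_insert hxS, h', Finset.erase_insert hxS']
  have hsub : P.image (fun S : Finset ℤ => insert x S) ⊆ Sm N x := by
    intro A hA
    obtain ⟨S, hS, rfl⟩ := Finset.mem_image.mp hA
    obtain ⟨h1, h2⟩ := hPmem S hS
    refine Finset.mem_filter.mpr ⟨Finset.mem_powerset.mpr ?_, Finset.mem_insert_self _ _, ?_⟩
    · intro z hz
      rcases Finset.mem_insert.mp hz with rfl | hz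
      · exact hx
      · exact (Finset.mem_erase.mp (h1 hz)).2
    · exact (Finset.card_insert_le _ _).trans (by omega)
  have hle := Finset.card_le_card hsub
  rw [Finset.card_image_of_injOn hinj, hPc] at hle
  obtain ⟨n, rfl⟩ : ∃ n, N = n + 1 := ⟨N - 1, by omega⟩
  have : (n + 1).choose 2 = n + n.choose 2 := by
    rw [Nat.choose_succ_succ' n 1, Nat.choose_one_right]
  simp only [Nat.add_sub_cancel] at hle
  omega

theorem construction (N : ℕ) (hN : 1 ≤ N) :
    ∃ F : Finset (Finset ℤ), (∀ A ∈ F, A ⊆ Icc 1 (N : ℤ)) ∧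
      (∀ A ∈ F, ∀ B ∈ F, A ≠ B → IsAP (A ∩ B)) ∧ (∃ x : ℤ, ∀ A ∈ F, x ∈ A) ∧
      N.choose 2 + 1 + (N - 1) / 4 ≤ F.card := by
  set D : ℕ := (N - 1) / 4 with hD
  set x : ℤ := 2 * D + 1 with hx
  have hDN : 4 * D + 1 ≤ N := by omega
  have hxN : x ∈ Icc 1 (N : ℤ) := by
    rw [mem_Icc]; omega
  set Ex : Finset (Finset ℤ) := (Icc 1 D).image (E1 x) ∪ (Icc 1 D).image (E2 x) with hEx
  set G1 : Finset (Finset ℤ) := (Icc 1 D).image (B1 x) with hG1
  set G2 : Finset (Finset ℤ) := (Icc 1 D).image (B2 x) with hG2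
  set G3 : Finset (Finset ℤ) := (Icc 1 D).image (B3 x) with hG3
  set Bg : Finset (Finset ℤ) := G1 ∪ (G2 ∪ G3) with hBg
  have hBig : ∀ A ∈ Bg, ∃ d, 1 ≤ d ∧ d ≤ D ∧ IsBig x d A := by
    intro A hA
    rw [hBg, mem_union, mem_union] at hA
    rcases hA with h | h | h
    · obtain ⟨d, hd, rfl⟩ := mem_image.mp h
      rw [mem_Icc] at hd
      exact ⟨d, hd.1, hd.2, Or.inl rfl⟩
    · obtain ⟨d, hd, rfl⟩ := mem_image.mp h
      rw [mem_Icc] at hd
      exact ⟨d, hd.1, hd.2, Or.inr (Or.inl rfl)⟩
    · obtain ⟨d, hd, rfl⟩ := mem_image.mp h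
      rw [mem_Icc] at hd
      exact ⟨d, hd.1, hd.2, Or.inr (Or.inr rfl)⟩
  have hSm : ∀ A ∈ Sm N x \ Ex, A ⊆ Icc 1 (N : ℤ) ∧ x ∈ A ∧ A.card ≤ 3 ∧
      ∀ d, 1 ≤ d → d ≤ D → A ≠ E1 x d ∧ A ≠ E2 x d := by
    intro A hA
    rw [mem_sdiff] at hA
    obtain ⟨h1, h2⟩ := hA
    unfold Sm at h1
    rw [mem_filter, mem_powerset] at h1
    refine ⟨h1.1, h1.2.1, h1.2.2, ?_⟩
    intro d hd hd'
    constructor
    · rintro rfl
      exact h2 (mem_union_left _ (mem_image_of_mem _ (mem_Icc.mpr ⟨hd, hd'⟩)))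
    · rintro rfl
      exact h2 (mem_union_right _ (mem_image_of_mem _ (mem_Icc.mpr ⟨hd, hd'⟩)))
  refine ⟨(Sm N x \ Ex) ∪ Bg, ?_, ?_, ⟨x, ?_⟩, ?_⟩
  · intro A hA
    rcases mem_union.mp hA with h | h
    · exact (hSm A h).1
    · obtain ⟨d, hd1, hd2, hb⟩ := hBig A h
      intro z hz
      have := big_sub hb z hz
      rw [mem_Icc]
      omega
  · intro A hA B hB hAB
    rcases mem_union.mp hA with h | h <;> rcases mem_union.mp hB with h' | h'
    · exact small_small (hSm A h).2.1 (hSm B h').2.1 (hSm A h).2.2.1 (hSm B h').2.2.1 hAB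
    · obtain ⟨d, hd1, hd2, hb⟩ := hBig B h'
      exact small_big hd1 (hSm A h).2.1 (hSm A h).2.2.1 ((hSm A h).2.2.2 d hd1 hd2).1
        ((hSm A h).2.2.2 d hd1 hd2).2 hb
    · obtain ⟨d, hd1, hd2, hb⟩ := hBig A h
      rw [inter_comm]
      exact small_big hd1 (hSm B h').2.1 (hSm B h').2.2.1 ((hSm B h').2.2.2 d hd1 hd2).1
        ((hSm B h').2.2.2 d hd1 hd2).2 hb
    · obtain ⟨d, hd1, hd2, hb⟩ := hBig A h
      obtain ⟨d', hd1', hd2', hb'⟩ := hBig B h'
      exact big_big hd1 hd1' hb hb' hAB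
  · intro A hA
    rcases mem_union.mp hA with h | h
    · exact (hSm A h).2.1
    · obtain ⟨d, hd1, hd2, hb⟩ := hBig A h
      exact big_x hb
  · have hdisj : Disjoint (Sm N x \ Ex) Bg := by
      rw [Finset.disjoint_left]
      intro A h h'
      obtain ⟨d, hd1, hd2, hb⟩ := hBig A h'
      have := big_card hd1 hb
      have := (hSm A h).2.2.1
      omega
    have hExc : Ex.card ≤ 2 * D := by
      rw [hEx]
      refine (Finset.card_union_le _ _).trans ?_
      have h1 := Finset.card_image_le (s := Icc 1 D) (f := E1 x)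
      have h2 := Finset.card_image_le (s := Icc 1 D) (f := E2 x)
      rw [Nat.card_Icc] at h1 h2
      omega
    have mB1 : ∀ d (z : ℤ), z ∈ B1 x d ↔ (z = x - 2 * d ∨ z = x - d ∨ z = x ∨ z = x + d) := by
      intro d z; simp only [B1, mem_insert, mem_singleton]
    have mB2 : ∀ d (z : ℤ), z ∈ B2 x d ↔ (z = x - d ∨ z = x ∨ z = x + d ∨ z = x + 2 * d) := by
      intro d z; simp only [B2, mem_insert, mem_singleton]
    have mB3 : ∀ d (z : ℤ), z ∈ B3 x d ↔
        (z = x - 2 * d ∨ z = x - d ∨ z = x ∨ z = x + d ∨ z = x + 2 * d) := by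
      intro d z; simp only [B3, mem_insert, mem_singleton]
    have c1 : G1.card = D := by
      rw [hG1, Finset.card_image_of_injOn, Nat.card_Icc]; · omega
      intro d hd d' hd' h
      simp only [coe_Icc, Set.mem_Icc] at hd hd'
      have h : B1 x d = B1 x d' := h
      have h1 := (mB1 d' (x + d)).mp (h ▸ (mB1 d (x + d)).mpr (by omega))
      have h2 := (mB1 d (x + d')).mp (h ▸ (mB1 d' (x + d')).mpr (by omega))
      omega
    have c2 : G2.card = D := by
      rw [hG2, Finset.card_image_of_injOn, Nat.card_Icc]; · omega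
      intro d hd d' hd' h
      simp only [coe_Icc, Set.mem_Icc] at hd hd'
      have h : B2 x d = B2 x d' := h
      have h1 := (mB2 d' (x + d)).mp (h ▸ (mB2 d (x + d)).mpr (by omega))
      have h2 := (mB2 d (x + d')).mp (h ▸ (mB2 d' (x + d')).mpr (by omega))
      omega
    have c3 : G3.card = D := by
      rw [hG3, Finset.card_image_of_injOn, Nat.card_Icc]; · omega
      intro d hd d' hd' h
      simp only [coe_Icc, Set.mem_Icc] at hd hd'
      have h : B3 x d = B3 x d' := h
      have h1 := (mB3 d' (x + d)).mp (h ▸ (mB3 d (x + d)).mpr (by omega))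
      have h2 := (mB3 d (x + d')).mp (h ▸ (mB3 d' (x + d')).mpr (by omega))
      omega
    have d23 : Disjoint G2 G3 := by
      rw [Finset.disjoint_left]
      intro A h h'
      obtain ⟨d, hd, rfl⟩ := mem_image.mp h
      obtain ⟨d', hd', e⟩ := mem_image.mp h'
      rw [mem_Icc] at hd hd'
      have h1 := (mB2 d (x + d')).mp (e ▸ (mB3 d' (x + d')).mpr (by omega))
      have h2 := (mB2 d (x - 2 * d')).mp (e ▸ (mB3 d' (x - 2 * d')).mpr (by omega))
      have h3 := (mB2 d (x - d')).mp (e ▸ (mB3 d' (x - d')).mpr (by omega))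
      omega
    have d1 : Disjoint G1 (G2 ∪ G3) := by
      rw [Finset.disjoint_left]
      intro A h h'
      obtain ⟨d, hd, rfl⟩ := mem_image.mp h
      rw [mem_Icc] at hd
      rcases mem_union.mp h' with h' | h'
      · obtain ⟨d', hd', e⟩ := mem_image.mp h'
        rw [mem_Icc] at hd'
        have h2 := (mB1 d (x + 2 * d')).mp (e ▸ (mB2 d' (x + 2 * d')).mpr (by omega))
        have h3 := (mB1 d (x + d')).mp (e ▸ (mB2 d' (x + d')).mpr (by omega))
        omega
      · obtain ⟨d', hd', e⟩ := mem_image.mp h'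
        rw [mem_Icc] at hd'
        have h2 := (mB1 d (x + 2 * d')).mp (e ▸ (mB3 d' (x + 2 * d')).mpr (by omega))
        have h3 := (mB1 d (x + d')).mp (e ▸ (mB3 d' (x + d')).mpr (by omega))
        omega
    have hBc : Bg.card = 3 * D := by
      rw [hBg, Finset.card_union_of_disjoint d1, Finset.card_union_of_disjoint d23, c1, c2, c3]
      ring
    have hSc := Sm_card N hN x hxN
    have hsd := Finset.card_le_card_sdiff_add_card (s := Sm N x) (t := Ex)
    rw [Finset.card_union_of_disjoint hdisj]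
    omega

end Pool.Agent.H483S
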