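import Mathlib

set_option autoImplicit false

namespace Pool.Agent.H483S

open Finset

/-- a non-empty finite arithmetic progression of integers -/
def IsAP (P : Finset ℤ) : Prop :=
  ∃ (a d : ℤ) (l : ℕ), 1 ≤ d ∧ 1 ≤ l ∧ P = (Finset.range l).image (fun i : ℕ => a + i * d)

/-- `W J`: the coprime pairs `2 ≤ p < q ≤ J` -/
def W (J : ℕ) : Finset (ℕ × ℕ) :=
  ((Icc 2 J) ×ˢ (Icc 2 J)).filter (fun p => p.1 < p.2 ∧ Nat.Coprime p.1 p.2)

/-- `NP I J`: the non-coprime pairs `(i, j)`, `1 ≤ i ≤ I`, `1 ≤ j ≤ J` -/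
def NP (I J : ℕ) : Finset (ℕ × ℕ) :=
  ((Icc 1 I) ×ˢ (Icc 1 J)).filter (fun p => ¬ Nat.Coprime p.1 p.2)

/-- the progression `{k d : -i ≤ k ≤ j}` through `0` -/
noncomputable def prog (d i j : ℕ) : Finset ℤ := (Finset.Icc (-(i : ℤ)) j).image (fun k => k * d)

/-- the pairs `y < z` of nonzero elements of `A` -/
def prs (A : Finset ℤ) : Finset (ℤ × ℤ) :=
  (A ×ˢ A).filter (fun q => q.1 < q.2 ∧ q.1 ≠ 0 ∧ q.2 ≠ 0)

end Pool.Agent.H483S
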