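import Pool.Agent.H483S.Defs

set_option autoImplicit false

namespace Pool.Agent.H483S

open Finset

/-- a progression containing `0, y, z` contains all multiples of `gcd (y, z)` between them -/
theorem IsAP.hull {P : Finset ℤ} (hP : IsAP P) (h0 : (0 : ℤ) ∈ P) {y z w : ℤ} (hy : y ∈ P)
    (hz : z ∈ P) (hw : ((Int.gcd y z : ℕ) : ℤ) ∣ w) {m M : ℤ} (hm : m ∈ P) (hM : M ∈ P)
    (h1 : m ≤ w) (h2 : w ≤ M) : w ∈ P := by
  obtain ⟨a, d, l, hd, hl, rfl⟩ := hP
  simp only [Finset.mem_image, Finset.mem_range] at h0 hy hz hm hM ⊢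
  obtain ⟨i0, hi0, e0⟩ := h0
  obtain ⟨iy, hiy, ey⟩ := hy
  obtain ⟨iz, hiz, ez⟩ := hz
  obtain ⟨im, him, em⟩ := hm
  obtain ⟨iM, hiM, eM⟩ := hM
  have hdy : d ∣ y := ⟨(iy : ℤ) - i0, by linarith [mul_comm d ((iy : ℤ) - i0), sub_mul (iy : ℤ) i0 d]⟩
  have hdz : d ∣ z := ⟨(iz : ℤ) - i0, by linarith [mul_comm d ((iz : ℤ) - i0), sub_mul (iz : ℤ) i0 d]⟩
  have hdw : d ∣ w := (Int.dvd_coe_gcd hdy hdz).trans hw
  obtain ⟨k, hk⟩ := hdw
  -- `w = a + (i0 + k) d`
  have hw' : w = a + (i0 + k) * d := by rw [hk]; linarith [mul_comm d k, add_mul (i0 : ℤ) k d]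
  have hge : (im : ℤ) ≤ i0 + k := by
    by_contra hc
    push_neg at hc
    have : (i0 + k) * d < im * d := by nlinarith
    linarith
  have hle : (i0 : ℤ) + k ≤ iM := by
    by_contra hc
    push_neg at hc
    have : (iM : ℤ) * d < (i0 + k) * d := by nlinarith
    linarith
  refine ⟨(i0 + k).toNat, ?_, ?_⟩
  · have h3 : (0 : ℤ) ≤ i0 + k := le_trans (by positivity) hge
    omega
  · have h3 : (0 : ℤ) ≤ i0 + k := le_trans (by positivity) hge
    rw [Int.toNat_of_nonneg h3]
    exact hw'.symm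

/-- a finite set through `0` closed under hulls of pairs is a `prog` (if it has a nonzero element) -/
theorem prog_of_closed {A : Finset ℤ} (h0 : (0 : ℤ) ∈ A) (hne : ∃ y ∈ A, y ≠ 0)
    (hc : ∀ y ∈ A, ∀ z ∈ A, y ≠ 0 → z ≠ 0 → ∀ w : ℤ, ((Int.gcd y z : ℕ) : ℤ) ∣ w →
      min 0 (min y z) ≤ w → w ≤ max 0 (max y z) → w ∈ A) :
    ∃ d i j : ℕ, 1 ≤ d ∧ A = prog d i j := by
  classical
  obtain ⟨y, hyA, hy0, hmin⟩ : ∃ y ∈ A, y ≠ 0 ∧ ∀ z ∈ A, z ≠ 0 → y.natAbs ≤ z.natAbs := by
    obtain ⟨y0, hy0A, hy00⟩ := hne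
    have hf : (A.filter (· ≠ 0)).Nonempty := ⟨y0, by simp [hy0A, hy00]⟩
    obtain ⟨y, hy, hmin⟩ := Finset.exists_min_image (A.filter (· ≠ 0)) Int.natAbs hf
    simp only [Finset.mem_filter] at hy hmin
    exact ⟨y, hy.1, hy.2, fun z hz hz0 => hmin z ⟨hz, hz0⟩⟩
  set d : ℕ := y.natAbs with hd
  have hd1 : 1 ≤ d := by omega
  have hdiv : ∀ z ∈ A, (d : ℤ) ∣ z := by
    intro z hz
    by_cases hz0 : z = 0
    · simp [hz0]
    have hg1 : 0 < Int.gcd y z := Int.gcd_pos_of_ne_zero_left _ hy0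
    have hgy : Int.gcd y z ∣ d := by
      rw [hd]
      exact Int.natCast_dvd.1 (Int.gcd_dvd_left ..)
    have hgle : Int.gcd y z ≤ d := Nat.le_of_dvd (by omega) hgy
    have hw : (Int.sign y * (Int.gcd y z : ℕ) : ℤ) ∈ A := by
      refine hc y hyA z hz hy0 hz0 _ (Dvd.intro_left _ rfl) ?_ ?_
      · rcases lt_or_gt_of_ne hy0 with h | h
        · rw [Int.sign_eq_neg_one_of_neg h]
          have : (y : ℤ) ≤ -1 * (Int.gcd y z : ℕ) := by
            have : (d : ℤ) = -y := by rw [hd]; omega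
            have h5 : ((Int.gcd y z : ℕ) : ℤ) ≤ d := by exact_mod_cast hgle
            linarith
          exact (min_le_right _ _).trans ((min_le_left _ _).trans this)
        · rw [Int.sign_eq_one_of_pos h]
          exact (min_le_left _ _).trans (by positivity)
      · rcases lt_or_gt_of_ne hy0 with h | h
        · rw [Int.sign_eq_neg_one_of_neg h]
          have : (-1 * (Int.gcd y z : ℕ) : ℤ) ≤ 0 := by
            have : (0 : ℤ) ≤ (Int.gcd y z : ℕ) := by positivity
            linarith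
          exact this.trans (le_max_left _ _)
        · rw [Int.sign_eq_one_of_pos h]
          have : (1 * (Int.gcd y z : ℕ) : ℤ) ≤ y := by
            have : (d : ℤ) = y := by rw [hd]; omega
            have h5 : ((Int.gcd y z : ℕ) : ℤ) ≤ d := by exact_mod_cast hgle
            linarith
          exact this.trans ((le_max_left _ _).trans (le_max_right _ _))
    have hne' : (Int.sign y * (Int.gcd y z : ℕ) : ℤ) ≠ 0 :=
      mul_ne_zero (by rwa [Ne, Int.sign_eq_zero_iff_zero]) (by exact_mod_cast hg1.ne')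
    have h6 := hmin _ hw hne'
    rw [Int.natAbs_mul, Int.natAbs_natCast, Int.natAbs_sign_of_ne_zero hy0, one_mul] at h6
    have h7 : Int.gcd y z = d := le_antisymm hgle h6
    rw [← h7]
    exact Int.gcd_dvd_right ..
  have hA : A.Nonempty := ⟨0, h0⟩
  set M := A.max' hA with hM
  set m := A.min' hA with hm
  have hMA : M ∈ A := A.max'_mem hA
  have hmA : m ∈ A := A.min'_mem hA
  have hM0 : 0 ≤ M := A.le_max' 0 h0
  have hm0 : m ≤ 0 := A.min'_le 0 h0
  obtain ⟨j, hj⟩ := hdiv M hMA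
  obtain ⟨i, hi⟩ := hdiv m hmA
  have hdpos : (0 : ℤ) < d := by exact_mod_cast hd1
  have hj0 : 0 ≤ j := by by_contra hc'; push_neg at hc'; nlinarith
  have hi0 : i ≤ 0 := by by_contra hc'; push_neg at hc'; nlinarith
  have hgcd : ∀ z ∈ A, Int.gcd y z = d := by
    intro z hz
    apply Nat.dvd_antisymm
    · rw [hd]; exact Int.natCast_dvd.1 (Int.gcd_dvd_left ..)
    · have h1 : (d : ℤ) ∣ y := hdiv y hyA
      exact_mod_cast Int.dvd_coe_gcd h1 (hdiv z hz)
  refine ⟨d, (-i).toNat, j.toNat, hd1, ?_⟩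
  ext w
  unfold prog
  simp only [Finset.mem_image, Finset.mem_Icc]
  rw [Int.toNat_of_nonneg (by omega), Int.toNat_of_nonneg hj0]
  constructor
  · intro hw
    obtain ⟨k, hk⟩ := hdiv w hw
    refine ⟨k, ⟨?_, ?_⟩, by rw [hk]; ring⟩
    · have h1 : m ≤ w := A.min'_le w hw
      by_contra hc'
      push_neg at hc'
      nlinarith
    · have h1 : w ≤ M := A.le_max' w hw
      by_contra hc'
      push_neg at hc'
      nlinarith
  · rintro ⟨k, ⟨hk1, hk2⟩, rfl⟩
    rcases lt_trichotomy k 0 with hk | hk | hk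
    · have hmne : m ≠ 0 := by
        intro h
        rw [h] at hi
        have : i = 0 := by
          rcases mul_eq_zero.1 hi.symm with h | h
          · omega
          · exact h
        omega
      refine hc y hyA m hmA hy0 hmne _ ?_ ?_ ?_
      · rw [hgcd m hmA]; exact Dvd.intro_left _ rfl
      · refine (min_le_right _ _).trans ((min_le_right _ _).trans ?_)
        rw [hi]; nlinarith
      · exact le_trans (by nlinarith) (le_max_left _ _)
    · subst hk; simpa using h0
    · have hMne : M ≠ 0 := by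
        intro h
        rw [h] at hj
        have : j = 0 := by
          rcases mul_eq_zero.1 hj.symm with h | h
          · omega
          · exact h
        omega
      refine hc y hyA M hMA hy0 hMne _ ?_ ?_ ?_
      · rw [hgcd M hMA]; exact Dvd.intro_left _ rfl
      · exact (min_le_left _ _).trans (by positivity)
      · refine le_trans ?_ ((le_max_right _ _).trans (le_max_right _ _))
        rw [hj]; nlinarith

end Pool.Agent.H483S
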