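import Pool.Agent.H483S.Defs

set_option autoImplicit false

namespace Pool.Agent.H483S

open Finset











/-- pairs with both entries divisible by `k` -/
def DD (I J k : ℕ) : Finset (ℕ × ℕ) :=
  ((Ioc 0 I).filter (fun x => k ∣ x)) ×ˢ ((Ioc 0 J).filter (fun x => k ∣ x))

lemma DD_card (I J k : ℕ) : ((DD I J k).card : ℝ) ≤ (I : ℝ) * J * (1 / (k : ℝ) ^ 2) := by
  unfold DD
  rw [Finset.card_product, Nat.Ioc_filter_dvd_card_eq_div, Nat.Ioc_filter_dvd_card_eq_div]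
  push_cast
  have h1 : ((I / k : ℕ) : ℝ) ≤ (I : ℝ) / k := Nat.cast_div_le
  have h2 : ((J / k : ℕ) : ℝ) ≤ (J : ℝ) / k := Nat.cast_div_le
  have h3 : (0 : ℝ) ≤ ((J / k : ℕ) : ℝ) := Nat.cast_nonneg _
  calc ((I / k : ℕ) : ℝ) * ((J / k : ℕ) : ℝ) ≤ ((I : ℝ) / k) * ((J : ℝ) / k) := by
        apply mul_le_mul h1 h2 h3
        positivity
    _ = (I : ℝ) * J * (1 / (k : ℝ) ^ 2) := by
        ring

lemma NP_sub (I J : ℕ) : NP I J ⊆ DD I J 2 ∪ (DD I J 3 ∪ (DD I J 5 ∪ (DD I J 7 ∪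
    (Ico 5 (J + 5)).biUnion (fun m => DD I J (2 * m + 1))))) := by
  intro p hp
  unfold NP at hp
  rw [Finset.mem_filter, Finset.mem_product, Finset.mem_Icc, Finset.mem_Icc] at hp
  obtain ⟨⟨⟨h1, h2⟩, h3, h4⟩, h5⟩ := hp
  obtain ⟨q, hq, hq1, hq2⟩ := Nat.Prime.not_coprime_iff_dvd.mp h5
  have hmem : ∀ k, k ∣ p.1 → k ∣ p.2 → p ∈ DD I J k := by
    intro k hk1 hk2
    unfold DD
    rw [Finset.mem_product, Finset.mem_filter, Finset.mem_filter, Finset.mem_Ioc, Finset.mem_Ioc]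
    exact ⟨⟨⟨by omega, h2⟩, hk1⟩, ⟨by omega, h4⟩, hk2⟩
  have hqJ : q ≤ J := le_trans (Nat.le_of_dvd (by omega) hq2) h4
  simp only [Finset.mem_union, Finset.mem_biUnion, Finset.mem_Ico]
  by_cases hlt : q < 11
  · have hq0 : q = 2 ∨ q = 3 ∨ q = 5 ∨ q = 7 := by
      interval_cases q <;> first | (exfalso; revert hq; decide) | simp
    rcases hq0 with h | h | h | h
    · left; exact hmem 2 (h ▸ hq1) (h ▸ hq2)
    · right; left; exact hmem 3 (h ▸ hq1) (h ▸ hq2)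
    · right; right; left; exact hmem 5 (h ▸ hq1) (h ▸ hq2)
    · right; right; right; left; exact hmem 7 (h ▸ hq1) (h ▸ hq2)
  · right; right; right; right
    have hodd : q % 2 = 1 := by
      rcases hq.eq_two_or_odd with h | h
      · omega
      · exact h
    refine ⟨q / 2, ⟨by omega, by omega⟩, ?_⟩
    have : 2 * (q / 2) + 1 = q := by omega
    rw [this]
    exact hmem q hq1 hq2

lemma tele (n : ℕ) : ∑ m ∈ Ico 5 (n + 5), (1 / ((2 * m + 1 : ℕ) : ℝ) ^ 2) ≤ (1 / 4) * (1 / 5 - 1 / ((n : ℝ) + 5)) := by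
  induction n with
  | zero => norm_num
  | succ n ih =>
    have e : n + 1 + 5 = (n + 5) + 1 := by ring
    rw [e, Finset.sum_Ico_succ_top (by omega : 5 ≤ n + 5)]
    have key : (1 / ((2 * (n + 5) + 1 : ℕ) : ℝ) ^ 2) ≤ (1 / 4) * (1 / ((n : ℝ) + 5) - 1 / ((n : ℝ) + 6)) := by
      push_cast
      have hn : (0 : ℝ) ≤ (n : ℝ) := Nat.cast_nonneg _
      have h1 : (1 / 4 : ℝ) * (1 / ((n : ℝ) + 5) - 1 / ((n : ℝ) + 6)) = 1 / (4 * ((n : ℝ) + 5) * ((n : ℝ) + 6)) := by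
        field_simp
        ring
      rw [h1]
      apply one_div_le_one_div_of_le
      · positivity
      · nlinarith
    have e2 : ((n + 1 : ℕ) : ℝ) + 5 = (n : ℝ) + 6 := by push_cast; ring
    rw [e2]
    linarith

/-- the constant -/
noncomputable def cc : ℝ := 1 / 4 + 1 / 9 + 1 / 25 + 1 / 49 + 1 / 20

lemma NP_le (I J : ℕ) : ((NP I J).card : ℝ) ≤ cc * I * J := by
  have h0 := Finset.card_le_card (NP_sub I J)
  have h1 := Finset.card_union_le (DD I J 2) (DD I J 3 ∪ (DD I J 5 ∪ (DD I J 7 ∪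
    (Ico 5 (J + 5)).biUnion (fun m => DD I J (2 * m + 1)))))
  have h2 := Finset.card_union_le (DD I J 3) (DD I J 5 ∪ (DD I J 7 ∪
    (Ico 5 (J + 5)).biUnion (fun m => DD I J (2 * m + 1))))
  have h3 := Finset.card_union_le (DD I J 5) (DD I J 7 ∪
    (Ico 5 (J + 5)).biUnion (fun m => DD I J (2 * m + 1)))
  have h4 := Finset.card_union_le (DD I J 7)
    ((Ico 5 (J + 5)).biUnion (fun m => DD I J (2 * m + 1)))
  have h5 : ((Ico 5 (J + 5)).biUnion (fun m => DD I J (2 * m + 1))).card ≤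
      ∑ m ∈ Ico 5 (J + 5), (DD I J (2 * m + 1)).card := Finset.card_biUnion_le
  have h6 : (NP I J).card ≤ (DD I J 2).card + ((DD I J 3).card + ((DD I J 5).card +
      ((DD I J 7).card + ∑ m ∈ Ico 5 (J + 5), (DD I J (2 * m + 1)).card))) := by omega
  have h7 : ((NP I J).card : ℝ) ≤ (DD I J 2).card + ((DD I J 3).card + ((DD I J 5).card +
      ((DD I J 7).card + ∑ m ∈ Ico 5 (J + 5), ((DD I J (2 * m + 1)).card : ℝ)))) := by
    exact_mod_cast h6
  have d2 := DD_card I J 2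
  have d3 := DD_card I J 3
  have d5 := DD_card I J 5
  have d7 := DD_card I J 7
  have hIJ : (0 : ℝ) ≤ (I : ℝ) * J := by positivity
  have ds : ∑ m ∈ Ico 5 (J + 5), ((DD I J (2 * m + 1)).card : ℝ) ≤ (I : ℝ) * J * (1 / 20) := by
    calc ∑ m ∈ Ico 5 (J + 5), ((DD I J (2 * m + 1)).card : ℝ)
        ≤ ∑ m ∈ Ico 5 (J + 5), (I : ℝ) * J * (1 / ((2 * m + 1 : ℕ) : ℝ) ^ 2) :=
          Finset.sum_le_sum (fun m _ => DD_card I J (2 * m + 1))
      _ = (I : ℝ) * J * ∑ m ∈ Ico 5 (J + 5), (1 / ((2 * m + 1 : ℕ) : ℝ) ^ 2) := by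
          rw [Finset.mul_sum]
      _ ≤ (I : ℝ) * J * (1 / 20) := by
          apply mul_le_mul_of_nonneg_left _ hIJ
          have := tele J
          have hp : (0 : ℝ) ≤ 1 / ((J : ℝ) + 5) := by positivity
          linarith
  unfold cc
  push_cast at d2 d3 d5 d7
  nlinarith

/-- coprime pairs in the square -/
def CP (J : ℕ) : Finset (ℕ × ℕ) :=
  ((Icc 1 J) ×ˢ (Icc 1 J)).filter (fun p => Nat.Coprime p.1 p.2)

lemma CP_sub (J : ℕ) : CP J ⊆ {(1, 1)} ∪ (W J ∪ ((W J).image Prod.swap ∪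
    ((Icc 2 J).image (fun j => (1, j)) ∪ (Icc 2 J).image (fun i => (i, 1))))) := by
  intro p hp
  unfold CP at hp
  rw [Finset.mem_filter, Finset.mem_product, Finset.mem_Icc, Finset.mem_Icc] at hp
  obtain ⟨⟨⟨h1, h2⟩, h3, h4⟩, h5⟩ := hp
  obtain ⟨i, j⟩ := p
  simp only at h1 h2 h3 h4 h5
  simp only [Finset.mem_union, Finset.mem_singleton, Finset.mem_image, Finset.mem_Icc, W,
    Finset.mem_filter, Finset.mem_product, Prod.mk.injEq]
  by_cases hi : i = 1
  · by_cases hj : j = 1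
    · left; exact ⟨hi, hj⟩
    · right; right; right; left
      exact ⟨j, ⟨by omega, h4⟩, hi.symm, rfl⟩
  · by_cases hj : j = 1
    · right; right; right; right
      exact ⟨i, ⟨by omega, h2⟩, rfl, hj.symm⟩
    · rcases lt_trichotomy i j with h | h | h
      · right; left
        exact ⟨⟨⟨by omega, h2⟩, by omega, h4⟩, h, h5⟩
      · exfalso
        subst h
        rw [Nat.coprime_self] at h5
        exact hi h5
      · right; right; left
        exact ⟨(j, i), ⟨⟨⟨by omega, h4⟩, by omega, h2⟩, h, h5.symm⟩, rfl⟩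

lemma CP_card (J : ℕ) (hJ : 1 ≤ J) : (CP J).card ≤ 1 + 2 * (W J).card + 2 * (J - 1) := by
  have h0 := Finset.card_le_card (CP_sub J)
  have h1 := Finset.card_union_le ({(1, 1)} : Finset (ℕ × ℕ)) (W J ∪ ((W J).image Prod.swap ∪
    ((Icc 2 J).image (fun j => (1, j)) ∪ (Icc 2 J).image (fun i => (i, 1)))))
  have h2 := Finset.card_union_le (W J) ((W J).image Prod.swap ∪
    ((Icc 2 J).image (fun j => (1, j)) ∪ (Icc 2 J).image (fun i => (i, 1))))
  have h3 := Finset.card_union_le ((W J).image Prod.swap)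
    ((Icc 2 J).image (fun j => (1, j)) ∪ (Icc 2 J).image (fun i => (i, 1)))
  have h4 := Finset.card_union_le ((Icc 2 J).image (fun j => ((1, j) : ℕ × ℕ)))
    ((Icc 2 J).image (fun i => ((i, 1) : ℕ × ℕ)))
  have h5 : ((W J).image Prod.swap).card ≤ (W J).card := Finset.card_image_le
  have h6 : ((Icc 2 J).image (fun j => ((1, j) : ℕ × ℕ))).card ≤ (Icc 2 J).card := Finset.card_image_le
  have h7 : ((Icc 2 J).image (fun i => ((i, 1) : ℕ × ℕ))).card ≤ (Icc 2 J).card := Finset.card_image_le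
  have h8 : (Icc 2 J).card = J + 1 - 2 := Nat.card_Icc 2 J
  have h9 : ({(1, 1)} : Finset (ℕ × ℕ)).card = 1 := Finset.card_singleton _
  omega

lemma CP_NP (J : ℕ) : (CP J).card + (NP J J).card = J * J := by
  unfold CP NP
  rw [Finset.card_filter_add_card_filter_not, Finset.card_product, Nat.card_Icc]
  simp

lemma W_ge (J : ℕ) (hJ : 1 ≤ J) : ((1 - cc) * J ^ 2 - 2 * J + 1) / 2 ≤ ((W J).card : ℝ) := by
  have h1 := CP_card J hJ
  have h2 := CP_NP J
  have h3 := NP_le J J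
  have h4 : ((CP J).card : ℝ) + (NP J J).card = (J : ℝ) * J := by exact_mod_cast h2
  have h5 : ((CP J).card : ℝ) ≤ 1 + 2 * (W J).card + 2 * ((J : ℝ) - 1) := by
    have : ((CP J).card : ℝ) ≤ ((1 + 2 * (W J).card + 2 * (J - 1) : ℕ) : ℝ) := by exact_mod_cast h1
    rw [Nat.cast_add, Nat.cast_add, Nat.cast_mul, Nat.cast_mul, Nat.cast_sub hJ] at this
    push_cast at this
    exact this
  nlinarith

theorem np_large (I J : ℕ) (hI : 1 ≤ I) (h : I ≤ J) (hJ2 : 37 ≤ J) :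
    (NP I J).card ≤ 1 + (W I).card + (W J).card := by
  have h1 := NP_le I J
  have h2 := W_ge I hI
  have h3 := W_ge J (by omega)
  have hJ : (37 : ℝ) ≤ (J : ℝ) := by exact_mod_cast hJ2
  suffices hs : ((NP I J).card : ℝ) ≤ 1 + (W I).card + (W J).card by exact_mod_cast hs
  have hkey : cc * I * J ≤ 1 + ((1 - cc) * (I : ℝ) ^ 2 - 2 * I + 1) / 2 + ((1 - cc) * (J : ℝ) ^ 2 - 2 * J + 1) / 2 := by
    have hc : cc = 10397 / 22050 := by unfold cc; norm_num
    rw [hc]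
    have hsq := sq_nonneg (2 * (11653 / 44100 : ℝ) * I - (1 + (10397 / 22050 : ℝ) * J))
    have hJJ : 0 ≤ ((J : ℝ) - 37) * J := mul_nonneg (by linarith) (by linarith)
    nlinarith [hsq, hJJ, hJ]
  linarith

end Pool.Agent.H483S
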