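import Pool.Agent.H483S.Defs

set_option autoImplicit false

namespace Pool.Agent.H483S

open Finset











/-- the cardinalities of `W J`, `J ≤ 36` -/
def wtab : List ℕ := [0, 0, 0, 1, 2, 5, 6, 11, 14, 19, 22, 31, 34, 45, 50, 57, 64, 79, 84, 101, 108, 119, 128, 149, 156, 175, 186, 203, 214, 241, 248, 277, 292, 311, 326, 349, 360]

/-- the number of `i ∈ [1, n]` not coprime to `j` -/
def ncr (j : ℕ) : ℕ → ℕ
  | 0 => 0
  | n + 1 => ncr j n + (if Nat.gcd (n + 1) j = 1 then 0 else 1)

/-- the number of pairs in `NP I J` -/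
def npc (I : ℕ) : ℕ → ℕ
  | 0 => 0
  | n + 1 => npc I n + ncr (n + 1) I

theorem ncr_eq (j n : ℕ) :
    ∑ i ∈ Icc 1 n, (if ¬ Nat.Coprime i j then 1 else 0) = ncr j n := by
  induction n with
  | zero => simp [ncr]
  | succ n ih =>
    rw [Finset.sum_Icc_succ_top (by omega), ih, ncr]
    congr 1
    by_cases h : Nat.gcd (n + 1) j = 1
    · simp [Nat.Coprime, h]
    · simp [Nat.Coprime, h]

theorem npc_eq (I J : ℕ) : (NP I J).card = npc I J := by
  rw [NP, Finset.card_filter, Finset.sum_product_right]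
  induction J with
  | zero => simp [npc]
  | succ n ih =>
    rw [Finset.sum_Icc_succ_top (by omega), ih, npc]
    congr 1
    exact ncr_eq (n + 1) I

set_option maxRecDepth 100000 in
theorem W_tab : ∀ J ∈ Finset.range 37, (W J).card = wtab.getD J 0 := by
  decide +kernel

set_option maxRecDepth 100000 in
theorem np_tab : ∀ J ∈ Finset.range 37, ∀ I ∈ Finset.range (J + 1),
    npc I J ≤ 1 + wtab.getD I 0 + wtab.getD J 0 := by
  decide +kernel

/-- TODO. Finite check. -/
theorem np_small (I J : ℕ) (hI : 1 ≤ I) (hJ : 1 ≤ J) (h : I ≤ J) (hJ2 : J ≤ 36) :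
    (NP I J).card ≤ 1 + (W I).card + (W J).card := by
  rw [npc_eq, W_tab I (Finset.mem_range.2 (by omega)), W_tab J (Finset.mem_range.2 (by omega))]
  exact np_tab J (Finset.mem_range.2 (by omega)) I (Finset.mem_range.2 (by omega))

end Pool.Agent.H483S
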