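import Pool.Agent.H483S.Big
import Pool.Agent.H483S.NpSmall
import Pool.Agent.H483S.NpLarge
import Pool.Agent.H483S.ApCount
import Pool.Agent.H483S.Constr

set_option autoImplicit false

namespace Pool.Agent.H483S

open Finset

theorem np_sym (I J : ℕ) : (NP I J).card = (NP J I).card := by
  refine card_bij (fun p _ => (p.2, p.1)) ?_ ?_ ?_
  · intro p hp
    unfold NP at hp ⊢
    simp only [mem_filter, mem_product] at hp ⊢
    exact ⟨⟨hp.1.2, hp.1.1⟩, fun h => hp.2 (Nat.Coprime.symm h)⟩
  · intro p _ q _ h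
    simp only [Prod.mk.injEq] at h
    exact Prod.ext h.2 h.1
  · intro p hp
    unfold NP at hp ⊢
    simp only [mem_filter, mem_product] at hp
    refine ⟨(p.2, p.1), ?_, rfl⟩
    simp only [mem_filter, mem_product]
    exact ⟨⟨hp.1.2, hp.1.1⟩, fun h => hp.2 (Nat.Coprime.symm h)⟩

theorem np_bound (I J : ℕ) (hI : 1 ≤ I) (hJ : 1 ≤ J) :
    (NP I J).card ≤ 1 + (W I).card + (W J).card := by
  rcases le_total I J with h | h
  · rcases Nat.lt_or_ge 36 J with h2 | h2
    · exact np_large I J hI h h2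
    · exact np_small I J hI hJ h h2
  · rw [np_sym]
    have h3 : (NP J I).card ≤ 1 + (W J).card + (W I).card := by
      rcases Nat.lt_or_ge 36 I with h2 | h2
      · exact np_large J I hJ h h2
      · exact np_small J I hJ hI h h2
    omega

theorem IsAP.shift {P : Finset ℤ} (hP : IsAP P) (x : ℤ) : IsAP (P.image (fun y => y - x)) := by
  obtain ⟨a, d, l, hd, hl, rfl⟩ := hP
  refine ⟨a - x, d, l, hd, hl, ?_⟩
  rw [image_image]
  refine image_congr (fun i _ => ?_)
  simp only [Function.comp]
  ring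

theorem IsAP.nonempty {P : Finset ℤ} (hP : IsAP P) : P.Nonempty := by
  obtain ⟨a, d, l, hd, hl, rfl⟩ := hP
  exact ⟨a + (0 : ℕ) * d, mem_image.2 ⟨0, mem_range.2 (by omega), rfl⟩⟩

/-- the bound for the members with at least three elements of a family with common element `x` -/
theorem big_le (N : ℕ) (F : Finset (Finset ℤ)) (hsub : ∀ A ∈ F, A ⊆ Icc 1 (N : ℤ))
    (hint : ∀ A ∈ F, ∀ B ∈ F, A ≠ B → IsAP (A ∩ B)) (x : ℤ) (hxN : x ∈ Icc 1 (N : ℤ))
    (hx : ∀ A ∈ F, x ∈ A) :
    (F.filter (fun A => ¬ A.card ≤ 2)).card ≤ (N - 1).choose 2 + (N - 1) / 4 := by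
  classical
  obtain ⟨h1, h2⟩ := mem_Icc.1 hxN
  set a := (x - 1).toNat with ha
  set b := ((N : ℤ) - x).toNat with hb
  have ha' : (a : ℤ) = x - 1 := Int.toNat_of_nonneg (by omega)
  have hb' : (b : ℤ) = N - x := Int.toNat_of_nonneg (by omega)
  have hinj : Function.Injective (fun y : ℤ => y - x) := fun y z h => by simpa using h
  have hinj2 : Function.Injective (fun A : Finset ℤ => A.image (fun y => y - x)) :=
    Finset.image_injective hinj
  have h3 := star_big (fun a b T hT => ap_count np_bound a b T hT) a b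
    (F.image (fun A => A.image (fun y => y - x))) ?_ ?_ ?_
  · have h4 : a + b = N - 1 := by omega
    rw [h4, filter_image, card_image_of_injective _ hinj2] at h3
    simpa only [card_image_of_injective _ hinj] using h3
  · intro A hA
    obtain ⟨B, hB, rfl⟩ := mem_image.1 hA
    intro w hw
    obtain ⟨y, hy, rfl⟩ := mem_image.1 hw
    have := mem_Icc.1 (hsub B hB hy)
    rw [mem_Icc]
    constructor <;> omega
  · intro A hA
    obtain ⟨B, hB, rfl⟩ := mem_image.1 hA
    exact mem_image.2 ⟨x, hx B hB, by ring⟩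
  · intro A hA B hB hne
    obtain ⟨A', hA', rfl⟩ := mem_image.1 hA
    obtain ⟨B', hB', rfl⟩ := mem_image.1 hB
    rw [← image_inter _ _ hinj]
    exact (hint A' hA' B' hB' (fun h => hne (by rw [h]))).shift x

theorem choose_two_step (N : ℕ) (hN : 1 ≤ N) : N.choose 2 = (N - 1).choose 2 + (N - 1) := by
  obtain ⟨M, rfl⟩ : ∃ M, N = M + 1 := ⟨N - 1, by omega⟩
  rw [Nat.choose_succ_succ' M 1, Nat.choose_one_right, Nat.add_sub_cancel]
  ring

/-- the number of members with at most two elements containing `x`, if `{x}` is not a member and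
the second element is always in `K` -/
theorem small_le (x : ℤ) (F : Finset (Finset ℤ)) (K : Finset ℤ) (hx : ∀ A ∈ F, x ∈ A)
    (h2 : ∀ A ∈ F, A.card ≤ 2) (hK : ∀ A ∈ F, (A.erase x).Nonempty ∧ A.erase x ⊆ K) :
    F.card ≤ K.card := by
  classical
  have h1 : F.card ≤ (powersetCard 1 K).card := by
    refine card_le_card_of_injOn (fun A => A.erase x) ?_ ?_
    · intro A hA
      have hA' := mem_coe.1 hA
      have hc : (A.erase x).card = A.card - 1 := card_erase_of_mem (hx A hA')
      have := h2 A hA'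
      obtain ⟨k1, k2⟩ := hK A hA'
      have := k1.card_pos
      simp only [mem_coe, mem_powersetCard]
      exact ⟨k2, by omega⟩
    · intro A hA B hB h
      have hA' := hx A (mem_coe.1 hA)
      have hB' := hx B (mem_coe.1 hB)
      simp only at h
      rw [← insert_erase hA', ← insert_erase hB', h]
  rwa [card_powersetCard, Nat.choose_one_right] at h1

/-- general inequality: `K` the set of the common elements, different from `x`, of the members
which do not contain `x` -/
theorem general_le (N : ℕ) (F : Finset (Finset ℤ)) (hsub : ∀ A ∈ F, A ⊆ Icc 1 (N : ℤ))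
    (hint : ∀ A ∈ F, ∀ B ∈ F, A ≠ B → IsAP (A ∩ B)) (x : ℤ) (hxN : x ∈ Icc 1 (N : ℤ))
    (hout : (F.filter (fun A => x ∉ A)).Nonempty) :
    F.card ≤ (N - 1).choose 2 + (N - 1) / 4 + (F.filter (fun A => x ∉ A)).card +
      ((Icc 1 (N : ℤ)).filter (fun u => ∀ A ∈ F, x ∉ A → u ∈ A)).card := by
  classical
  set Fi := F.filter (fun A => x ∈ A) with hFi
  set Fo := F.filter (fun A => x ∉ A) with hFo
  set K := (Icc 1 (N : ℤ)).filter (fun u => ∀ A ∈ F, x ∉ A → u ∈ A) with hK
  have hs1 : Fi.card + Fo.card = F.card := card_filter_add_card_filter_not _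
  have hs2 : (Fi.filter (fun A => A.card ≤ 2)).card + (Fi.filter (fun A => ¬ A.card ≤ 2)).card =
    Fi.card := card_filter_add_card_filter_not _
  have hbig := big_le N Fi (fun A hA => hsub A (mem_filter.1 hA).1)
    (fun A hA B hB => hint A (mem_filter.1 hA).1 B (mem_filter.1 hB).1) x hxN
    (fun A hA => (mem_filter.1 hA).2)
  have hsm : (Fi.filter (fun A => A.card ≤ 2)).card ≤ K.card := by
    have hmeet : ∀ A ∈ Fi.filter (fun A => A.card ≤ 2), ∀ B ∈ F, x ∉ B →
        ∃ u ∈ A, u ∈ B ∧ u ≠ x := by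
      intro A hA B hB hxB
      obtain ⟨hA1, hA2⟩ := mem_filter.1 hA
      obtain ⟨hA3, hA4⟩ := mem_filter.1 hA1
      have hne : A ≠ B := by rintro rfl; exact hxB hA4
      obtain ⟨u, hu⟩ := (hint A hA3 B hB hne).nonempty
      obtain ⟨hu1, hu2⟩ := mem_inter.1 hu
      exact ⟨u, hu1, hu2, by rintro rfl; exact hxB hu2⟩
    refine small_le x _ K (fun A hA => (mem_filter.1 (mem_filter.1 hA).1).2)
      (fun A hA => (mem_filter.1 hA).2) (fun A hA => ?_)
    obtain ⟨hA1, hA2⟩ := mem_filter.1 hA
    obtain ⟨hA3, hA4⟩ := mem_filter.1 hA1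
    obtain ⟨B0, hB0⟩ := hout
    obtain ⟨hB01, hB02⟩ := mem_filter.1 hB0
    obtain ⟨u0, hu0, -, hu0x⟩ := hmeet A hA B0 hB01 hB02
    refine ⟨⟨u0, mem_erase.2 ⟨hu0x, hu0⟩⟩, fun v hv => ?_⟩
    obtain ⟨hvx, hvA⟩ := mem_erase.1 hv
    refine mem_filter.2 ⟨hsub A hA3 hvA, fun B hB hxB => ?_⟩
    obtain ⟨u, hu1, hu2, hu3⟩ := hmeet A hA B hB hxB
    have hc : (A.erase x).card ≤ 1 := by
      rw [card_erase_of_mem hA4]; omega
    have := card_le_one.1 hc u (mem_erase.2 ⟨hu3, hu1⟩) v hv
    rwa [← this]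
  omega

/-- the upper bound for families in which some element is missed by at most three members -/
theorem near_le (N : ℕ) (F : Finset (Finset ℤ)) (hsub : ∀ A ∈ F, A ⊆ Icc 1 (N : ℤ))
    (hint : ∀ A ∈ F, ∀ B ∈ F, A ≠ B → IsAP (A ∩ B)) (x : ℤ) (hxN : x ∈ Icc 1 (N : ℤ))
    (h3 : (F.filter (fun A => x ∉ A)).card ≤ 3) :
    F.card ≤ N.choose 2 + 1 + (N - 1) / 4 := by
  classical
  have hN1 : 1 ≤ N := by have := mem_Icc.1 hxN; omega
  rw [choose_two_step N hN1]
  rcases (F.filter (fun A => x ∉ A)).eq_empty_or_nonempty with he | hne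
  · -- a star
    have hx : ∀ A ∈ F, x ∈ A := by
      intro A hA
      by_contra hc
      have : A ∈ F.filter (fun A => x ∉ A) := mem_filter.2 ⟨hA, hc⟩
      rw [he] at this
      exact absurd this (notMem_empty _)
    have hbig := big_le N F hsub hint x hxN hx
    have hs2 : (F.filter (fun A => A.card ≤ 2)).card + (F.filter (fun A => ¬ A.card ≤ 2)).card =
      F.card := card_filter_add_card_filter_not _
    have hsm : ((F.filter (fun A => A.card ≤ 2)).erase {x}).card ≤ ((Icc 1 (N : ℤ)).erase x).card := by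
      refine small_le x _ _ (fun A hA => hx A (mem_filter.1 (mem_erase.1 hA).2).1)
        (fun A hA => (mem_filter.1 (mem_erase.1 hA).2).2) (fun A hA => ?_)
      obtain ⟨hA1, hA2⟩ := mem_erase.1 hA
      have hA3 := (mem_filter.1 hA2).1
      refine ⟨?_, erase_subset_erase _ (hsub A hA3)⟩
      rw [nonempty_iff_ne_empty]
      intro h
      rw [erase_eq_empty_iff] at h
      rcases h with h | h
      · have := hx A hA3
        rw [h] at this
        exact absurd this (notMem_empty _)
      · exact hA1 h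
    rw [card_erase_of_mem hxN, Int.card_Icc] at hsm
    have h5 : (F.filter (fun A => A.card ≤ 2)).card ≤
        ((F.filter (fun A => A.card ≤ 2)).erase {x}).card + 1 := by
      have := pred_card_le_card_erase (s := F.filter (fun A => A.card ≤ 2)) (a := ({x} : Finset ℤ))
      omega
    omega
  · have hgen := general_le N F hsub hint x hxN hne
    set Fo := F.filter (fun A => x ∉ A) with hFo
    set K := (Icc 1 (N : ℤ)).filter (fun u => ∀ A ∈ F, x ∉ A → u ∈ A) with hK
    -- `K` is a subset of `[N] \ {x}` and of all members of `Fo`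
    have hKM : K ⊆ (Icc 1 (N : ℤ)).erase x := by
      obtain ⟨B, hB⟩ := hne
      obtain ⟨hB1, hB2⟩ := mem_filter.1 hB
      intro u hu
      obtain ⟨hu1, hu2⟩ := mem_filter.1 hu
      exact mem_erase.2 ⟨by rintro rfl; exact hB2 (hu2 B hB1 hB2), hu1⟩
    have hM : ((Icc 1 (N : ℤ)).erase x).card = N - 1 := by
      rw [card_erase_of_mem hxN, Int.card_Icc]
      omega
    have hpow : Fo.card ≤ (powerset ((Icc 1 (N : ℤ)).erase x \ K)).card := by
      refine card_le_card_of_injOn (fun A => A \ K) ?_ ?_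
      · intro A hA
        obtain ⟨hA1, hA2⟩ := mem_filter.1 (mem_coe.1 hA)
        simp only [mem_coe, mem_powerset]
        refine sdiff_subset_sdiff (fun u hu => mem_erase.2 ⟨?_, hsub A hA1 hu⟩) (Subset.refl _)
        rintro rfl
        exact hA2 hu
      · intro A hA B hB h
        obtain ⟨hA1, hA2⟩ := mem_filter.1 (mem_coe.1 hA)
        obtain ⟨hB1, hB2⟩ := mem_filter.1 (mem_coe.1 hB)
        have kA : K ⊆ A := fun u hu => (mem_filter.1 hu).2 A hA1 hA2
        have kB : K ⊆ B := fun u hu => (mem_filter.1 hu).2 B hB1 hB2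
        simp only at h
        rw [← union_sdiff_of_subset kA, ← union_sdiff_of_subset kB, h]
    rw [card_powerset, card_sdiff_of_subset hKM, hM] at hpow
    have hKc : K.card ≤ N - 1 := by rw [← hM]; exact card_le_card hKM
    have hkey : Fo.card ≤ (N - 1 - K.card) + 1 := by
      rcases Nat.lt_or_ge (N - 1 - K.card) 2 with h | h
      · have h' : N - 1 - K.card = 0 ∨ N - 1 - K.card = 1 := by omega
        rcases h' with h' | h' <;> rw [h'] at hpow ⊢ <;> simpa using hpow
      · omega
    omega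

end Pool.Agent.H483S
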